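import Pool.Agent.P.MP_8ecd01_al.A1.Jung

/-! The centre theorem for closed convex cones in `T^n`. -/

namespace Pool.Agent.P.MP_8ecd01_al.A1

open Filter Topology

variable {n : ℕ} {L : Type} {C : Set (V n L)} {J J' : Set (Fin n)}

/-- `u` is opposite to the part of `y` in the factors `J` -/
def Anti (J : Set (Fin n)) (y u : V n L) : Prop :=
  (∀ i ∈ J, (u i).len = (y i).len) ∧ (∀ i, i ∉ J → (u i).len = 0) ∧ ip y u = -nsq u

theorem Anti.term {y u : V n L} (h : Anti J y u) (i : Fin n) :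
    T.ip (y i) (u i) = -(u i).len ^ 2 := by
  have e : ∑ i, (T.ip (y i) (u i) + (u i).len ^ 2) = 0 := by
    rw [Finset.sum_add_distrib]
    have := h.2.2
    simp only [ip, nsq] at this
    linarith
  have := (Finset.sum_eq_zero_iff_of_nonneg fun j _ => by
    by_cases hj : j ∈ J
    · have a1 := mul_le_mul_of_nonneg_left (T.neg_le_sg (y j).leg (u j)) (y j).len_nonneg
      rw [T.ip, ← h.1 j hj] at *
      nlinarith
    · rw [T.ip_zero_right _ (h.2.1 j hj)]; positivity).1 e i (Finset.mem_univ i)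
  linarith

theorem anti_of_term {y u : V n L} (h1 : ∀ i ∈ J, (u i).len = (y i).len)
    (h2 : ∀ i, i ∉ J → (u i).len = 0) (h3 : ∀ i ∈ J, T.ip (y i) (u i) = -(u i).len ^ 2) :
    Anti J y u := by
  refine ⟨h1, h2, ?_⟩
  rw [ip, nsq, ← Finset.sum_neg_distrib]
  refine Finset.sum_congr rfl fun i _ => ?_
  by_cases hi : i ∈ J
  · exact h3 i hi
  · rw [T.ip_zero_right _ (h2 i hi), h2 i hi]; simp

theorem T.sg_add_zero (l : L) (s : T L) {t : T L} (h : t.len = 0) :
    T.sg l (T.add s t) = T.sg l s := by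
  have h1 : (T.add s t).len = s.len := by
    rw [T.len_add, T.sg_zero _ h, add_zero, abs_of_nonneg s.len_nonneg]
  have h2 : (T.add s t).leg = s.leg := by
    simp [T.add, T.sg_zero _ h, s.len_nonneg]
  unfold T.sg
  rw [h1, h2]

theorem T.zero_add_sg (l : L) {s : T L} (t : T L) (h : s.len = 0) :
    T.sg l (T.add s t) = T.sg l t := by
  have h1 : (T.add s t).len = t.len := by rw [T.len_add, h, zero_add, T.abs_sg]
  rcases t.len_nonneg.eq_or_lt with h0 | h0
  · rw [T.sg_zero _ h0.symm, T.sg_zero _ (h1.trans h0.symm)]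
  · have h2 : (T.add s t).leg = t.leg :=
      T.leg_eq_of_sg_pos (by rw [T.sg_add_right, T.sg_zero _ h]; linarith)
    unfold T.sg
    rw [h1, h2]

theorem T.len_of_sg {s t : T L} (h : ∀ l, T.sg l s = T.sg l t) : s.len = t.len := by
  rw [← T.abs_sg s.leg s, h, T.abs_sg]

/-- the `J`-part of every point has an opposite in `C` -/
def Opps (C : Set (V n L)) (J : Set (Fin n)) : Prop := ∀ y ∈ C, ∃ u ∈ C, Anti J y u

/-- the points of `C` vanishing in the factors `J` -/
def Ker (C : Set (V n L)) (J : Set (Fin n)) : Set (V n L) := {y | y ∈ C ∧ ∀ i ∈ J, (y i).len = 0}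

theorem IsCone.ker (hC : IsCone C) (J : Set (Fin n)) : IsCone (Ker C J) where
  closed := by
    have : Ker C J = C ∩ ⋂ i ∈ J, {y | (y i).len = 0} := by ext y; simp [Ker]
    rw [this]
    exact hC.closed.inter (isClosed_biInter fun i _ =>
      isClosed_eq (continuous_len i) continuous_const)
  ne := let ⟨x, hx⟩ := hC.ne
    ⟨_, hC.smul 0 le_rfl x hx, fun i _ => by simp [A1.smul, T.len_smul]⟩
  smul a ha x hx := ⟨hC.smul a ha x hx.1, fun i hi => by
    simp [A1.smul, T.len_smul ha, hx.2 i hi]⟩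
  add x hx y hy := ⟨hC.add x hx.1 y hy.1, fun i hi => by
    simp [A1.add, T.len_add, hx.2 i hi, T.sg_zero _ (hy.2 i hi)]⟩

theorem Opps.step (hC : IsCone C) (h : Opps C J) (h' : Opps (Ker C J) J') : Opps C (J ∪ J') := by
  intro y hy
  obtain ⟨u, hu, a⟩ := h y hy
  have hy' : add y u ∈ Ker C J := ⟨hC.add y hy u hu, fun i hi => by
    have := T.len_add_sq (y i) (u i)
    rw [a.term i, a.1 i hi] at this
    exact pow_eq_zero_iff (two_ne_zero) |>.1 (by show (T.add (y i) (u i)).len ^ 2 = 0; linarith)⟩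
  obtain ⟨u', hu', a'⟩ := h' _ hy'
  have b1 : ∀ i ∈ J, ∀ l, T.sg l (add u u' i) = T.sg l (u i) := fun i hi l =>
    T.sg_add_zero l _ (hu'.2 i hi)
  have b2 : ∀ i, i ∉ J → ∀ l, T.sg l (add u u' i) = T.sg l (u' i) := fun i hi l =>
    T.zero_add_sg l _ (a.2.1 i hi)
  have b3 : ∀ i, i ∉ J → ∀ l, T.sg l (add y u i) = T.sg l (y i) := fun i hi l =>
    T.sg_add_zero l _ (a.2.1 i hi)
  refine ⟨add u u', hC.add u hu u' hu'.1, anti_of_term (fun i hi => ?_) (fun i hi => ?_)
    fun i _ => ?_⟩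
  · by_cases hJ : i ∈ J
    · rw [T.len_of_sg (b1 i hJ), a.1 i hJ]
    · rw [T.len_of_sg (b2 i hJ), a'.1 i (hi.resolve_left hJ), T.len_of_sg (b3 i hJ)]
  · rw [T.len_of_sg (b2 i fun h => hi (Or.inl h)), a'.2.1 i fun h => hi (Or.inr h)]
  · by_cases hJ : i ∈ J
    · rw [T.ip, b1 i hJ, T.len_of_sg (b1 i hJ), ← a.term i, T.ip]
    · rw [T.ip, b2 i hJ, T.len_of_sg (b2 i hJ), ← a'.term i, ← T.ip, T.ip_comm,
        T.ip_comm (add y u i), T.ip, T.ip, b3 i hJ]

theorem Opps.ker (h : Opps C J') (J : Set (Fin n)) : Opps (Ker C J) J' := fun y hy => by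
  obtain ⟨u, hu, a⟩ := h y hy.1
  refine ⟨u, ⟨hu, fun i hi => ?_⟩, a⟩
  by_cases h1 : i ∈ J'
  · rw [a.1 i h1, hy.2 i hi]
  · exact a.2.1 i h1

/-- the largest set of factors with opposites -/
def Jmax (C : Set (V n L)) : Set (Fin n) := {i | ∃ J, Opps C J ∧ i ∈ J}

theorem opps_jmax (hC : IsCone C) : Opps C (Jmax C) := by
  classical
  have : ∀ s : Finset (Fin n), ∃ J, Opps C J ∧ ∀ i ∈ s, i ∈ Jmax C → i ∈ J := fun s => by
    induction s using Finset.induction_on with
    | empty =>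
      exact ⟨∅, fun y hy => ⟨_, hC.smul 0 le_rfl y hy, anti_of_term (by simp)
        (fun i _ => by simp [smul, T.len_smul]) (by simp)⟩, by simp⟩
    | insert j s _ ih =>
      obtain ⟨J, hJ, h⟩ := ih
      by_cases hj : j ∈ Jmax C
      · obtain ⟨J', hJ', hj⟩ := hj
        refine ⟨_, hJ.step hC (hJ'.ker J), fun i hi h1 => ?_⟩
        rcases Finset.mem_insert.1 hi with rfl | hi
        · exact Or.inr hj
        · exact Or.inl (h i hi h1)
      · refine ⟨J, hJ, fun i hi h1 => ?_⟩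
        rcases Finset.mem_insert.1 hi with rfl | hi
        · exact absurd h1 hj
        · exact h i hi h1
  obtain ⟨J, hJ, h⟩ := this Finset.univ
  have e : J = Jmax C := Set.Subset.antisymm (fun i hi => ⟨J, hJ, hi⟩)
    fun i hi => h i (Finset.mem_univ i) hi
  rwa [← e]

variable {σ : Equiv.Perm (Fin n)} {R : V n L → V n L → Prop}

theorem Iso.opps (h : Iso C σ R) (hJ : Opps C J) : Opps C (σ.symm ⁻¹' J) := fun y hy => by
  obtain ⟨x, hx, a⟩ := h.sur y hy
  obtain ⟨u, hu, b⟩ := hJ x hx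
  obtain ⟨w, hw, c⟩ := h.tot u hu
  refine ⟨w, hw, fun i hi => ?_, fun i hi => ?_, ?_⟩
  · rw [h.symm.len _ _ c i |>.symm, h.symm.len _ _ a i |>.symm]; exact b.1 _ hi
  · rw [h.symm.len _ _ c i |>.symm]; exact b.2.1 _ hi
  · rw [h.ip _ _ _ _ a c, h.nsq c]; exact b.2.2

theorem inv_ker (C : Set (V n L)) : Inv C (Ker C (Jmax C)) :=
  ⟨fun _ h => h.1, fun σ R h x hx y hy a => ⟨hy, fun i ⟨J, hJ, hi⟩ => by
    rw [(h.symm.len _ _ a i).symm]
    exact hx.2 _ ⟨_, h.symm.opps hJ, by simpa using hi⟩⟩⟩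

theorem hasFix_of_centre (hC : IsCone C) (h : ¬ NoCentre C) : HasFix C := by
  set N : Set (V n L) := {c | c ∈ C ∧ ∀ g ∈ C, 0 ≤ ip c g} with hN
  have hNc : IsCone N := by
    refine ⟨?_, ?_, fun a ha x hx => ⟨hC.smul a ha x hx.1, fun g hg => ?_⟩,
      fun x hx y hy => ⟨hC.add x hx.1 y hy.1, fun g hg => ?_⟩⟩
    · have : N = C ∩ ⋂ g ∈ C, {c | 0 ≤ ip c g} := by ext x; simp [hN]
      rw [this]
      exact hC.closed.inter (isClosed_biInter fun y _ =>
        isClosed_le continuous_const (continuous_ip' y))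
    · obtain ⟨x, hx⟩ := hC.ne
      exact ⟨_, hC.smul 0 le_rfl x hx, fun g _ => by rw [smul_ip le_rfl, zero_mul]⟩
    · rw [smul_ip ha]; exact mul_nonneg ha (hx.2 g hg)
    · have a1 := ip_add g x y
      have a2 := hx.2 g hg
      have a3 := hy.2 g hg
      rw [ip_comm] at a2 a3 ⊢
      linarith
  have hinv : Inv C N := ⟨fun _ h => h.1, fun σ R h x hx y hy a => ⟨hy, fun g hg => by
    obtain ⟨g', hg', b⟩ := h.sur g hg
    rw [h.ip _ _ _ _ a b]; exact hx.2 g' hg'⟩⟩
  refine hinv.hasFix (hasFix_of_nonneg hNc (fun x hx y hy => hx.2 y hy.1) ?_)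
  by_contra h1
  exact h fun c hc h2 => by_contra fun h3 => h1 ⟨c, ⟨hc, h2⟩, h3⟩

theorem opps_flat [Nontrivial L] (hC : IsCone C) (h : NoCentre C) : Opps C {i | ¬ Br C i} := by
  classical
  intro y hy
  have hW := hC.ker {i | Br C i}
  have hr : ∀ g ∈ C, (fun i => if Br C i then T.smul 0 (g i) else g i) ∈ Ker C {i | Br C i} :=
    fun g hg => ⟨flat_mem hC h hg, fun i hi => by
      have : Br C i := hi
      simp [this, T.len_smul]⟩
  have hf : ∀ i, ∃ l l' : L, l ≠ l' ∧ (¬ Br C i →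
      ∀ g ∈ C, 0 < (g i).len → (g i).leg = l ∨ (g i).leg = l') := fun i => by
    by_cases hi : Br C i
    · obtain ⟨l, l', hl⟩ := exists_pair_ne L
      exact ⟨l, l', hl, fun h => absurd hi h⟩
    · obtain ⟨l, l', hl, h1⟩ := flat_legs hi
      exact ⟨l, l', hl, fun _ => h1⟩
  choose l l' hl hf using hf
  set w : V n L := fun i => if Br C i then T.smul 0 (y i) else y i with hw
  have hwW : w ∈ Ker C {i | Br C i} := hr y hy
  set w' : V n L := fun i => T.mk (if (w i).leg = l i then l' i else l i) (w i).len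
    (w i).len_nonneg with hw'
  have e1 : ∀ g ∈ Ker C {i | Br C i}, ip w g + ip w' g = 0 := fun g hg => by
    rw [ip, ip, ← Finset.sum_add_distrib]
    refine Finset.sum_eq_zero fun i _ => ?_
    by_cases hi : Br C i
    · rw [T.ip_zero_right _ (hg.2 i hi), T.ip_zero_right _ (hg.2 i hi), add_zero]
    · have a1 := sg_flat (hl i) (hf i hi g hg.1)
      rcases (w i).len_nonneg.eq_or_lt with h0 | h0
      · simp [T.ip, hw', ← h0]
      · simp only [T.ip, hw', T.len_mk, T.leg_mk, ← mul_add]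
        rcases hf i hi w hwW.1 h0 with h1 | h1
        · rw [if_pos h1, h1, a1, mul_zero]
        · rw [if_neg (h1 ▸ (hl i).symm), h1, add_comm, a1, mul_zero]
  obtain ⟨p, hp, p1, -⟩ := hW.proj w'
  have hu := hW.add w hwW p hp
  have e2 : nsq (add w p) = 0 := h _ hu.1 fun g hg => by
    have a1 := ip_add (fun i => if Br C i then T.smul 0 (g i) else g i) w p
    have a2 := e1 _ (hr g hg)
    have a3 := p1 _ (hr g hg)
    have a4 : ip (add w p) g = ip (add w p) fun i => if Br C i then T.smul 0 (g i) else g i :=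
      Finset.sum_congr rfl fun i _ => by
        by_cases hi : Br C i
        · rw [T.ip_zero_left (hu.2 i hi), T.ip_zero_left (hu.2 i hi)]
        · simp [hi]
    rw [ip_comm] at a1
    rw [ip_comm _ p, ip_comm _ (add w p)] at a1
    linarith
  have e3 : ∀ i, ¬ Br C i → T.sg (y i).leg (p i) = -(y i).len := fun i hi => by
    have := nsq_eq_zero.1 e2 i
    simp only [add, T.len_add, hw, hi, if_false, abs_eq_zero] at this
    linarith
  have e4 : ∀ i, ¬ Br C i → (p i).len = (y i).len := fun i hi => by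
    rw [← T.abs_sg (y i).leg, e3 i hi, abs_neg, abs_of_nonneg (y i).len_nonneg]
  exact ⟨p, hp.1, anti_of_term e4 (fun i hi => hp.2 i (not_not.1 hi)) fun i hi => by
    rw [T.ip, e3 i hi, e4 i hi]; ring⟩

/-- nonzero points of minimal support -/
def Atom (C : Set (V n L)) (z : V n L) : Prop :=
  z ∈ C ∧ nsq z ≠ 0 ∧ ∀ y ∈ C, nsq y ≠ 0 → (∀ i, (z i).len = 0 → (y i).len = 0) →
    ∀ i, (y i).len = 0 → (z i).len = 0

theorem exists_atom {y : V n L} (hy : y ∈ C) (h0 : nsq y ≠ 0) : ∃ z, Atom C z := by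
  classical
  obtain ⟨z, ⟨hz, hz0⟩, hmin⟩ := (InvImage.wf
    (fun y : V n L => (Finset.univ.filter fun i => (y i).len ≠ 0).card) wellFounded_lt).has_min
    {y | y ∈ C ∧ nsq y ≠ 0} ⟨y, hy, h0⟩
  refine ⟨z, hz, hz0, fun w hw hw0 h i hi => by_contra fun h1 => hmin w ⟨hw, hw0⟩ ?_⟩
  refine Finset.card_lt_card ⟨fun j hj => ?_, fun h2 => ?_⟩
  · simp only [Finset.mem_filter, Finset.mem_univ, true_and] at hj ⊢
    exact fun h3 => hj (h j h3)
  · simpa [hi] using h2 (Finset.mem_filter.2 ⟨Finset.mem_univ i, h1⟩)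

theorem Atom.ratio [Nonempty L] (hC : IsCone C) {z : V n L} (hz : Atom C z)
    {m : Fin n → L → ℝ} (hm : Mix C m) (h0 : ∀ i l, m i l ≤ 0)
    (h1 : ∀ i, 0 < (z i).len → ∀ l, m i l < 0) :
    ∃ τ : ℝ, ∀ i, 0 < (z i).len → m i (z i).leg = τ * (z i).len := by
  classical
  have hne : (Finset.univ.filter fun i => 0 < (z i).len).Nonempty := by
    by_contra h
    refine hz.2.1 (nsq_eq_zero.2 fun i => le_antisymm (not_lt.1 fun hi => h ⟨i, ?_⟩)
      (z i).len_nonneg)
    simpa using hi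
  obtain ⟨j, hj, hmin⟩ := Finset.exists_min_image _
    (fun i => (z i).len / -m i (z i).leg) hne
  have hj' : 0 < (z j).len := by simpa using hj
  set t := (z j).len / -m j (z j).leg with ht
  have hmj := h1 j hj' (z j).leg
  have ht0 : 0 < t := div_pos hj' (by linarith)
  have hm' := (hm.smul hC ht0.le).step hz.1
  obtain ⟨b, hb⟩ := exists_bar fun i l l' hl => hm'.pair i hl
  have hbC := hb.mem hC hm'
  have hle : ∀ i l, t * m i l ≤ 0 := fun i l => mul_nonpos_of_nonneg_of_nonpos ht0.le (h0 i l)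
  have e1 : ∀ i, (z i).len = 0 → (b i).len = 0 := fun i hi =>
    le_antisymm (hb.len_le le_rfl fun l => by
      simp only [Pi.add_apply, Pi.smul_apply, smul_eq_mul, T.sg_zero _ hi]
      linarith [hle i l]) (b i).len_nonneg
  have e2 : (b j).len = 0 := le_antisymm (hb.len_le le_rfl fun l => by
    simp only [Pi.add_apply, Pi.smul_apply, smul_eq_mul]
    by_cases hl : (z j).leg = l
    · rw [← hl, T.sg_self, ht, div_neg, neg_mul, div_mul_cancel₀ _ hmj.ne]; simp
    · rw [T.sg_of_ne hl]; linarith [hle j l]) (b j).len_nonneg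
  have e3 : nsq b = 0 := by_contra fun h => hj'.ne' (hz.2.2 b hbC h e1 j e2)
  refine ⟨-t⁻¹, fun i hi => ?_⟩
  have a1 := hb.1 i (z i).leg
  simp only [Pi.add_apply, Pi.smul_apply, smul_eq_mul, T.sg_self,
    T.sg_zero _ (nsq_eq_zero.1 e3 i)] at a1
  have a2 : t ≤ (z i).len / -m i (z i).leg := hmin i (by simpa using hi)
  rw [le_div_iff₀ (by linarith [h1 i hi (z i).leg])] at a2
  have a3 : (z i).len = -(t * m i (z i).leg) := by linarith
  rw [a3]; field_simp

theorem Atom.tie [Nontrivial L] (hC : IsCone C) (h : NoCentre C)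
    (hf : ∀ y ∈ C, ∀ i, ¬ Br C i → (y i).len = 0) {z : V n L} (hz : Atom C z) {g : V n L}
    (hg : g ∈ C) : ∃ κ : ℝ, ∀ i, 0 < (z i).len → T.sg (z i).leg (g i) = κ * (z i).len := by
  classical
  obtain ⟨η, hη, hm⟩ := exists_mix hC h
  obtain ⟨m, hm, hm1⟩ := hm (η / 2) (by positivity)
  have hg0 := nsq_nonneg g
  set ε : ℝ := η / 4 / (nsq g + 1) with hε
  have hε0 : 0 < ε := by positivity
  have hfl : ∀ m, Mix C m → ∀ i, ¬ Br C i → ∀ l, m i l ≤ 0 := fun m hm i hi l => by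
    have := hm.pair_eq i (l := l) (l' := l) fun y hy => by simp [T.sg_zero _ (hf y hy i hi)]
    linarith
  have hbr : ∀ i, 0 < (z i).len → Br C i := fun i hi => by_contra fun h => hi.ne' (hf z hz.1 i h)
  have b1 : ∀ i, Br C i → ∀ l, m i l ≤ -(η / 2) := fun i hi l => by
    have := hm1 i l
    rw [if_pos hi] at this
    linarith
  have hm' := hm.step (hC.smul ε hε0.le g hg)
  have b2 : ∀ i, Br C i → ∀ l, (m + fun i l => T.sg l (smul ε g i)) i l < 0 := fun i hi l => by
    have a1 := b1 i hi l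
    have a2 := T.sg_le l (g i)
    have a3 := len_sq_le g i
    have a4 : ε * (nsq g + 1) = η / 4 := by rw [hε]; field_simp
    have a5 : T.sg l (g i) ≤ nsq g + 1 := by nlinarith [sq_nonneg ((g i).len - 1)]
    simp only [Pi.add_apply, smul, T.sg_smul hε0.le]
    nlinarith
  obtain ⟨τ, hτ⟩ := hz.ratio hC hm (fun i l => by
    by_cases hi : Br C i
    · linarith [b1 i hi l]
    · exact hfl m hm i hi l) fun i hi l => by linarith [b1 i (hbr i hi) l]
  obtain ⟨τ', hτ'⟩ := hz.ratio hC hm' (fun i l => by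
    by_cases hi : Br C i
    · exact (b2 i hi l).le
    · exact hfl _ hm' i hi l) fun i hi l => b2 i (hbr i hi) l
  refine ⟨(τ' - τ) / ε, fun i hi => ?_⟩
  have a1 := hτ' i hi
  simp only [Pi.add_apply, smul, T.sg_smul hε0.le, hτ i hi] at a1
  field_simp
  linarith

theorem ip_of_tie {z g : V n L} {κ : ℝ}
    (h : ∀ i, 0 < (z i).len → T.sg (z i).leg (g i) = κ * (z i).len) : ip z g = κ * nsq z := by
  rw [ip, nsq, Finset.mul_sum]
  refine Finset.sum_congr rfl fun i _ => ?_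
  rcases (z i).len_nonneg.eq_or_lt with h0 | h0
  · simp [T.ip, ← h0]
  · rw [T.ip, h i h0]; ring

theorem Atom.opps [Nontrivial L] (hC : IsCone C) (h : NoCentre C)
    (hf : ∀ y ∈ C, ∀ i, ¬ Br C i → (y i).len = 0) {z z' : V n L} (hz : Atom C z)
    (hz' : Atom C z') (hneg : ip z z' < 0) : Opps C {i | 0 < (z i).len} := by
  obtain ⟨κ, hκ⟩ := hz.tie hC h hf hz'.1
  have hz0 := lt_of_le_of_ne (nsq_nonneg z) (Ne.symm hz.2.1)
  have hκ0 : κ < 0 := by
    rw [ip_of_tie hκ] at hneg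
    by_contra h1
    nlinarith [not_lt.1 h1]
  have l1 : ∀ i, 0 < (z i).len → (z' i).len = -κ * (z i).len := fun i hi => by
    rw [← T.abs_sg (z i).leg, hκ i hi, abs_mul, abs_of_neg hκ0, abs_of_pos hi]
  have l2 : ∀ i, (z i).len = 0 → (z' i).len = 0 := hz'.2.2 z hz.1 hz.2.1 fun i hi => by
    by_contra h1
    have h2 := lt_of_le_of_ne (z i).len_nonneg (Ne.symm h1)
    have := l1 i h2
    nlinarith
  have l3 : ∀ i, i ∉ {i | 0 < (z i).len} → (z i).len = 0 := fun i hi =>
    le_antisymm (not_lt.1 hi) (z i).len_nonneg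
  intro g hg
  obtain ⟨a, ha⟩ := hz.tie hC h hf hg
  have l4 : ∀ i, 0 < (z i).len → (g i).len = |a| * (z i).len := fun i hi => by
    rw [← T.abs_sg (z i).leg, ha i hi, abs_mul, abs_of_pos hi]
  rcases le_or_gt a 0 with h1 | h1
  · refine ⟨_, hC.smul (-a) (by linarith) z hz.1, anti_of_term (fun i hi => ?_)
      (fun i hi => ?_) fun i hi => ?_⟩
    · rw [l4 i hi, abs_of_nonpos h1]; exact T.len_smul (by linarith) _
    · simp [smul, T.len_smul (neg_nonneg.2 h1), l3 i hi]
    · rw [T.ip_comm, T.ip]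
      simp only [smul, T.len_smul (neg_nonneg.2 h1), T.leg_smul, ha i hi]
      ring
  · have h2 : 0 ≤ a / -κ := div_nonneg h1.le (by linarith)
    have l5 : ∀ i, 0 < (z i).len → (smul (a / -κ) z' i).len = a * (z i).len := fun i hi => by
      simp only [smul, T.len_smul h2, l1 i hi]
      have := hκ0.ne
      field_simp
    refine ⟨_, hC.smul _ h2 z' hz'.1, anti_of_term (fun i hi => ?_)
      (fun i hi => ?_) fun i hi => ?_⟩
    · rw [l5 i hi, l4 i hi, abs_of_pos h1]
    · simp [smul, T.len_smul h2, l2 i (l3 i hi)]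
    · have hi' : 0 < (z i).len := hi
      have e : (g i).leg = (z i).leg := T.leg_eq_of_sg_pos (by rw [ha i hi]; positivity)
      rw [T.ip, l5 i hi, l4 i hi, abs_of_pos h1, e]
      simp only [smul, T.sg_smul h2, hκ i hi]
      have := hκ0.ne
      field_simp

theorem Iso.atom (h : Iso C σ R) {z y : V n L} (hz : Atom C z) (hy : y ∈ C) (a : R z y) :
    Atom C y := by
  refine ⟨hy, h.nsq a ▸ hz.2.1, fun w hw hw0 h1 i hi => ?_⟩
  obtain ⟨x, hx, b⟩ := h.sur w hw
  rw [(h.symm.len _ _ a i).symm]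
  refine hz.2.2 x hx (h.nsq b ▸ hw0) (fun j hj => ?_) _ ((h.symm.len _ _ b i).trans hi)
  rw [← h.len _ _ b j]
  exact h1 _ ((h.len _ _ a j).trans hj)

theorem hasFix_of_atoms [Nontrivial L] (hC : IsCone C) (h : NoCentre C)
    (hJ : ∀ J, Opps C J → ∀ y ∈ C, ∀ i ∈ J, (y i).len = 0) (h0 : ∃ y ∈ C, nsq y ≠ 0) :
    HasFix C := by
  have hf : ∀ y ∈ C, ∀ i, ¬ Br C i → (y i).len = 0 := fun y hy i hi =>
    hJ _ (opps_flat hC h) y hy i hi
  have hat : ∀ z z', Atom C z → Atom C z' → 0 ≤ ip z z' := fun z z' hz hz' => by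
    by_contra h1
    refine hz.2.1 (nsq_eq_zero.2 fun i => ?_)
    rcases (z i).len_nonneg.eq_or_lt with h2 | h2
    · exact h2.symm
    · exact hJ _ (hz.opps hC h hf hz' (not_le.1 h1)) z hz.1 i h2
  set J : Set (Fin n) := {i | ∀ z, Atom C z → (z i).len = 0} with hJdef
  set N : Set (V n L) := {y | y ∈ Ker C J ∧ ∀ z, Atom C z → 0 ≤ ip z y} with hN
  have hK := hC.ker J
  have hNc : IsCone N := by
    refine ⟨?_, ?_, fun a ha x hx => ⟨hK.smul a ha x hx.1, fun g hg => ?_⟩,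
      fun x hx y hy => ⟨hK.add x hx.1 y hy.1, fun g hg => ?_⟩⟩
    · have : N = Ker C J ∩ ⋂ z ∈ {z | Atom C z}, {y | 0 ≤ ip z y} := by ext x; simp [hN]
      rw [this]
      exact hK.closed.inter (isClosed_biInter fun y _ =>
        isClosed_le continuous_const (continuous_ip y))
    · obtain ⟨x, hx⟩ := hK.ne
      exact ⟨_, hK.smul 0 le_rfl x hx, fun g _ => by rw [ip_smul le_rfl, zero_mul]⟩
    · rw [ip_smul ha]; exact mul_nonneg ha (hx.2 g hg)
    · linarith [ip_add g x y, hx.2 g hg, hy.2 g hg]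
  have hinv : Inv C N := ⟨fun _ h => h.1.1, fun σ R a x hx y hy b => ⟨⟨hy, fun i hi => by
      rw [(a.symm.len _ _ b i).symm]
      refine hx.1.2 _ fun z hz => ?_
      obtain ⟨w, hw, c⟩ := a.tot z hz.1
      rw [a.symm.len _ _ c i]
      exact hi w (a.atom hz hw c)⟩, fun w hw => by
      obtain ⟨z, hz, c⟩ := a.sur w hw.1
      rw [a.ip _ _ _ _ c b]
      exact hx.2 z (a.symm.atom hw hz c)⟩⟩
  refine hinv.hasFix (hasFix_of_nonneg hNc (fun x hx y hy => Finset.sum_nonneg fun i _ => ?_) ?_)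
  · by_cases hi : i ∈ J
    · rw [T.ip_zero_left (hx.1.2 i hi)]
    · simp only [hJdef, Set.mem_ofPred_eq, not_forall] at hi
      obtain ⟨z, hz, hi⟩ := hi
      have hi' := lt_of_le_of_ne (z i).len_nonneg (Ne.symm hi)
      have hz0 := lt_of_le_of_ne (nsq_nonneg z) (Ne.symm hz.2.1)
      have key : ∀ y ∈ N, 0 < (y i).len → (y i).leg = (z i).leg := fun y hy py => by
        obtain ⟨κ, hκ⟩ := hz.tie hC h hf hy.1.1
        have a1 := hy.2 z hz
        rw [ip_of_tie hκ] at a1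
        have a2 : 0 ≤ κ := by
          by_contra h1
          nlinarith [not_le.1 h1]
        by_contra h1
        have a3 := hκ i hi'
        rw [T.sg_of_ne h1] at a3
        nlinarith
      rcases (x i).len_nonneg.eq_or_lt with h1 | h1
      · rw [T.ip_zero_left h1.symm]
      rcases (y i).len_nonneg.eq_or_lt with h2 | h2
      · rw [T.ip_zero_right _ h2.symm]
      rw [T.ip, T.sg_of_eq ((key y hy h2).trans (key x hx h1).symm)]
      positivity
  · obtain ⟨y, hy, hy0⟩ := h0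
    obtain ⟨z, hz⟩ := exists_atom hy hy0
    exact ⟨z, ⟨⟨hz.1, fun i hi => hi z hz⟩, fun z' hz' => hat z' z hz' hz⟩, hz.2.1⟩

/-- the centre theorem for cones -/
theorem IsCone.hasFix [Nontrivial L] (hC : IsCone C) (h : ¬ Opps C Set.univ) : HasFix C := by
  have hK := hC.ker (Jmax C)
  refine (inv_ker C).hasFix ?_
  by_cases hc : NoCentre (Ker C (Jmax C))
  · refine hasFix_of_atoms hK hc (fun J hJ y hy i hi =>
      hy.2 i ⟨_, (opps_jmax hC).step hC hJ, Or.inr hi⟩) ?_
    by_contra h1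
    refine h ?_
    have := (opps_jmax hC).step hC (J' := Set.univ) fun y hy => by
      have h2 : nsq y = 0 := by_contra fun h2 => h1 ⟨y, hy, h2⟩
      exact ⟨y, hy, fun _ _ => rfl, by simp, by rw [ip_self, h2]; simp⟩
    rwa [Set.union_univ] at this
  · exact hasFix_of_centre hK hc

end Pool.Agent.P.MP_8ecd01_al.A1
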