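import Mathlib

/-! The vector building `T^n`, `T` the cone over the discrete set `L`. -/

namespace Pool.Agent.P.MP_8ecd01_al.A1

open Filter Topology

/-- a leg and a nonnegative length -/
def T (L : Type) : Type := L × {r : ℝ // 0 ≤ r}

variable {n : ℕ} {L : Type}

namespace T

/-- the leg -/
def leg (s : T L) : L := s.1
/-- the length -/
def len (s : T L) : ℝ := s.2.1
/-- constructor -/
def mk (l : L) (r : ℝ) (h : 0 ≤ r) : T L := (l, ⟨r, h⟩)

@[simp] theorem leg_mk (l : L) (r : ℝ) (h : 0 ≤ r) : (mk l r h).leg = l := rfl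
@[simp] theorem len_mk (l : L) (r : ℝ) (h : 0 ≤ r) : (mk l r h).len = r := rfl
theorem len_nonneg (s : T L) : 0 ≤ s.len := s.2.2

open Classical in
/-- signed length seen from the leg `l` -/
noncomputable def sg (l : L) (s : T L) : ℝ := if s.leg = l then s.len else -s.len

open Classical in
/-- distance -/
noncomputable def d (s t : T L) : ℝ := if s.leg = t.leg then |s.len - t.len| else s.len + t.len

/-- inner product -/
noncomputable def ip (s t : T L) : ℝ := s.len * sg s.leg t

open Classical in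
/-- sum -/
noncomputable def add (s t : T L) : T L :=
  mk (if 0 ≤ s.len + sg s.leg t then s.leg else t.leg) |s.len + sg s.leg t| (abs_nonneg _)

/-- scalar multiple -/
noncomputable def smul (a : ℝ) (s : T L) : T L :=
  mk s.leg (max a 0 * s.len) (mul_nonneg (le_max_right _ _) s.len_nonneg)

theorem sg_self (s : T L) : sg s.leg s = s.len := by simp [sg]
theorem sg_of_ne {l : L} {s : T L} (h : s.leg ≠ l) : sg l s = -s.len := by simp [sg, h]
theorem sg_of_eq {l : L} {s : T L} (h : s.leg = l) : sg l s = s.len := by simp [sg, h]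
theorem abs_sg (l : L) (s : T L) : |sg l s| = s.len := by
  unfold sg; split_ifs
  · exact abs_of_nonneg s.len_nonneg
  · rw [abs_neg]; exact abs_of_nonneg s.len_nonneg
theorem sg_le (l : L) (s : T L) : sg l s ≤ s.len := abs_sg l s ▸ le_abs_self _
theorem neg_le_sg (l : L) (s : T L) : -s.len ≤ sg l s := abs_sg l s ▸ neg_abs_le _
theorem sg_sq (l : L) (s : T L) : sg l s ^ 2 = s.len ^ 2 := by rw [← sq_abs, abs_sg]
theorem sg_zero (l : L) {s : T L} (h : s.len = 0) : sg l s = 0 := by
  rw [← abs_eq_zero, abs_sg, h]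
theorem sg_add_sg {l l' : L} (h : l ≠ l') (s : T L) : sg l s + sg l' s ≤ 0 := by
  have := s.len_nonneg
  unfold sg; split_ifs with h1 h2
  · exact absurd (h1.symm.trans h2) h
  all_goals linarith
theorem leg_eq_of_sg_pos {l : L} {s : T L} (h : 0 < sg l s) : s.leg = l := by
  by_contra h'
  rw [sg_of_ne h'] at h
  linarith [s.len_nonneg]

theorem ip_comm (s t : T L) : ip s t = ip t s := by
  unfold ip sg
  by_cases h : s.leg = t.leg
  · simp [h, mul_comm]
  · simp [h, Ne.symm h, mul_comm]
theorem ip_self (s : T L) : ip s s = s.len ^ 2 := by rw [ip, sg_self, sq]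
theorem ip_zero_left {s : T L} (h : s.len = 0) (t : T L) : ip s t = 0 := by rw [ip, h, zero_mul]
theorem ip_zero_right (s : T L) {t : T L} (h : t.len = 0) : ip s t = 0 := by
  rw [ip_comm, ip_zero_left h]
theorem d_sq (s t : T L) : d s t ^ 2 = s.len ^ 2 + t.len ^ 2 - 2 * ip s t := by
  unfold d ip sg
  by_cases h : s.leg = t.leg
  · simp only [h, if_true, sq_abs]; ring
  · simp only [h, Ne.symm h, if_false]; ring
theorem d_nonneg (s t : T L) : 0 ≤ d s t := by
  unfold d; split_ifs
  · exact abs_nonneg _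
  · exact add_nonneg s.len_nonneg t.len_nonneg
theorem abs_sg_sub (l : L) (s t : T L) : |sg l s - sg l t| ≤ d s t := by
  have hs := s.len_nonneg
  have ht := t.len_nonneg
  unfold d sg
  by_cases h : s.leg = t.leg
  · rw [if_pos h, h]
    split_ifs
    · exact le_rfl
    · rw [show -s.len - -t.len = -(s.len - t.len) by ring, abs_neg]
  · simp only [h, if_false]
    split_ifs <;> exact abs_le.2 ⟨by linarith, by linarith⟩
theorem d_eq_sg (s t : T L) : d s t = |sg s.leg s - sg s.leg t| := by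
  unfold d
  rw [sg_self]
  split_ifs with h
  · rw [sg_of_eq h.symm]
  · rw [sg_of_ne (Ne.symm h), sub_neg_eq_add,
      abs_of_nonneg (add_nonneg s.len_nonneg t.len_nonneg)]

noncomputable instance : PseudoMetricSpace (T L) where
  dist := d
  dist_self s := by simp [d]
  dist_comm s t := by
    unfold d
    by_cases h : s.leg = t.leg
    · simp [h, abs_sub_comm]
    · simp [h, Ne.symm h, add_comm]
  dist_triangle s t u := by
    rw [d_eq_sg s u]
    exact (abs_sub_le _ (sg s.leg t) _).trans (add_le_add (abs_sg_sub _ _ _) (abs_sg_sub _ _ _))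

theorem dist_eq (s t : T L) : Dist.dist s t = d s t := rfl

theorem continuous_sg (l : L) : Continuous (sg l : T L → ℝ) :=
  (LipschitzWith.of_dist_le_mul (K := 1) fun s t => by
    rw [Real.dist_eq, NNReal.coe_one, one_mul]; exact abs_sg_sub l s t).continuous

theorem abs_len_sub (s t : T L) : |s.len - t.len| ≤ d s t := by
  rw [← abs_sg s.leg s, ← abs_sg s.leg t]
  exact (abs_abs_sub_abs_le_abs_sub _ _).trans (abs_sg_sub _ _ _)

theorem continuous_len : Continuous (len : T L → ℝ) :=
  (LipschitzWith.of_dist_le_mul (K := 1) fun s t => by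
    rw [Real.dist_eq, NNReal.coe_one, one_mul]; exact abs_len_sub s t).continuous

theorem leg_eq_of_d_lt {s t : T L} (h : d s t < s.len) : t.leg = s.leg := by
  by_contra h'
  rw [d, if_neg (Ne.symm h')] at h
  linarith [t.len_nonneg]

instance : CompleteSpace (T L) := by
  refine Metric.complete_of_cauchySeq_tendsto fun u hu => ?_
  have h1 : CauchySeq fun k => (u k).len := by
    rw [Metric.cauchySeq_iff] at hu ⊢
    intro ε hε
    obtain ⟨N, hN⟩ := hu ε hε
    exact ⟨N, fun a ha b hb => (abs_len_sub _ _).trans_lt (hN a ha b hb)⟩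
  obtain ⟨r, hr⟩ := cauchySeq_tendsto_of_complete h1
  have hr0 : 0 ≤ r := ge_of_tendsto' hr fun k => (u k).len_nonneg
  rcases hr0.eq_or_lt with h0 | h0
  · refine ⟨mk (u 0).leg 0 le_rfl, Metric.tendsto_atTop.2 fun ε hε => ?_⟩
    obtain ⟨N, hN⟩ := Metric.tendsto_atTop.1 hr ε hε
    refine ⟨N, fun k hk => ?_⟩
    have := hN k hk
    rw [← h0, Real.dist_eq] at this
    rw [dist_eq, d]
    split_ifs
    · exact this
    · rw [len_mk, add_zero]; simpa [abs_of_nonneg (u k).len_nonneg] using this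
  · obtain ⟨N, hN⟩ := Metric.cauchySeq_iff.1 hu (r / 2) (by linarith)
    obtain ⟨M, hM⟩ := Metric.tendsto_atTop.1 hr (r / 2) (by linarith)
    have hl : ∀ k, max N M ≤ k → (u k).leg = (u (max N M)).leg := fun k hk => by
      refine leg_eq_of_d_lt ((hN _ (le_max_left _ _) k ((le_max_left _ _).trans hk)).trans ?_)
      have := hM (max N M) (le_max_right _ _)
      rw [Real.dist_eq] at this
      linarith [(abs_lt.1 this).1]
    refine ⟨mk (u (max N M)).leg r hr0, Metric.tendsto_atTop.2 fun ε hε => ?_⟩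
    obtain ⟨K, hK⟩ := Metric.tendsto_atTop.1 hr ε hε
    refine ⟨max K (max N M), fun k hk => ?_⟩
    rw [dist_eq, d, leg_mk, if_pos (hl k ((le_max_right _ _).trans hk))]
    exact hK k ((le_max_left _ _).trans hk)

theorem len_add (s t : T L) : (add s t).len = |s.len + sg s.leg t| := rfl

theorem len_add_sq (s t : T L) : (add s t).len ^ 2 = s.len ^ 2 + t.len ^ 2 + 2 * ip s t := by
  rw [len_add, sq_abs, ← sg_sq s.leg t, ip]; ring

theorem sg_add_left (s t : T L) : sg s.leg (add s t) = s.len + sg s.leg t := by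
  have hs := s.len_nonneg
  have ht := t.len_nonneg
  by_cases h : 0 ≤ s.len + sg s.leg t
  · rw [sg_of_eq (by simp [add, h]), len_add, abs_of_nonneg h]
  · have h1 : t.leg ≠ s.leg := fun h1 => h (by rw [sg_of_eq h1]; linarith)
    rw [sg_of_ne (by simpa [add, h] using h1), len_add, abs_of_neg (not_le.1 h), neg_neg]

theorem leg_add (s t : T L) : (add s t).leg = s.leg ∨ (add s t).leg = t.leg := by
  unfold add
  rw [leg_mk]
  split_ifs <;> simp

theorem sg_add_right (s t : T L) : sg t.leg (add s t) = sg t.leg s + t.len := by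
  by_cases h : s.leg = t.leg
  · rw [← h, sg_add_left, sg_self, sg_of_eq h.symm]
  · have h1 := sg_add_left s t
    rw [sg_of_ne (Ne.symm h)] at h1
    rw [sg_of_ne h]
    rcases leg_add s t with h2 | h2
    · rw [sg_of_eq h2] at h1
      rw [sg_of_ne (h2 ▸ h)]; linarith
    · rw [sg_of_ne (h2 ▸ Ne.symm h)] at h1
      rw [sg_of_eq h2]; linarith

theorem sg_add (l : L) (s t : T L) : sg l s + sg l t ≤ sg l (add s t) := by
  by_cases h1 : s.leg = l
  · rw [← h1, sg_add_left, sg_self]
  by_cases h2 : t.leg = l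
  · rw [← h2, sg_add_right, sg_self]
  have h3 : (add s t).leg ≠ l := by rcases leg_add s t with h | h <;> rwa [h]
  rw [sg_of_ne h1, sg_of_ne h2, sg_of_ne h3, len_add]
  have := (abs_add_le s.len (sg s.leg t))
  rw [abs_sg, abs_of_nonneg s.len_nonneg] at this
  linarith

theorem len_smul {a : ℝ} (ha : 0 ≤ a) (s : T L) : (smul a s).len = a * s.len := by
  simp [smul, ha]
@[simp] theorem leg_smul (a : ℝ) (s : T L) : (smul a s).leg = s.leg := rfl
theorem sg_smul {a : ℝ} (ha : 0 ≤ a) (l : L) (s : T L) : sg l (smul a s) = a * sg l s := by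
  unfold sg
  rw [leg_smul, len_smul ha]
  split_ifs <;> ring

end T

/-- the vector building -/
abbrev V (n : ℕ) (L : Type) : Type := Fin n → T L

/-- inner product -/
noncomputable def ip (x y : V n L) : ℝ := ∑ i, T.ip (x i) (y i)
/-- squared norm -/
noncomputable def nsq (x : V n L) : ℝ := ∑ i, (x i).len ^ 2
/-- squared distance -/
noncomputable def dsq (x y : V n L) : ℝ := ∑ i, T.d (x i) (y i) ^ 2
/-- sum -/
noncomputable def add (x y : V n L) : V n L := fun i => T.add (x i) (y i)
/-- scalar multiple -/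
noncomputable def smul (a : ℝ) (x : V n L) : V n L := fun i => T.smul a (x i)

theorem ip_comm (x y : V n L) : ip x y = ip y x := Finset.sum_congr rfl fun _ _ => T.ip_comm _ _
theorem ip_self (x : V n L) : ip x x = nsq x := Finset.sum_congr rfl fun _ _ => T.ip_self _
theorem nsq_nonneg (x : V n L) : 0 ≤ nsq x := Finset.sum_nonneg fun _ _ => sq_nonneg _
theorem dsq_nonneg (x y : V n L) : 0 ≤ dsq x y := Finset.sum_nonneg fun _ _ => sq_nonneg _
theorem dsq_eq (x y : V n L) : dsq x y = nsq x + nsq y - 2 * ip x y := by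
  simp only [dsq, nsq, ip, T.d_sq, Finset.sum_sub_distrib, Finset.sum_add_distrib, Finset.mul_sum]
theorem nsq_add (x y : V n L) : nsq (add x y) = nsq x + nsq y + 2 * ip x y := by
  simp only [add, nsq, ip, T.len_add_sq, Finset.sum_add_distrib, Finset.mul_sum]
theorem ip_add (u x y : V n L) : ip u x + ip u y ≤ ip u (add x y) := by
  simp only [ip, ← Finset.sum_add_distrib]
  refine Finset.sum_le_sum fun i _ => ?_
  simp only [T.ip, add, ← mul_add]
  exact mul_le_mul_of_nonneg_left (T.sg_add _ _ _) (T.len_nonneg _)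
theorem ip_smul {a : ℝ} (ha : 0 ≤ a) (u x : V n L) : ip u (smul a x) = a * ip u x := by
  simp only [ip, smul, T.ip, T.sg_smul ha, Finset.mul_sum]
  exact Finset.sum_congr rfl fun _ _ => by ring
theorem smul_ip {a : ℝ} (ha : 0 ≤ a) (u x : V n L) : ip (smul a x) u = a * ip x u := by
  rw [ip_comm, ip_smul ha, ip_comm]
theorem nsq_smul {a : ℝ} (ha : 0 ≤ a) (x : V n L) : nsq (smul a x) = a ^ 2 * nsq x := by
  rw [← ip_self, ip_smul ha, smul_ip ha, ip_self]; ring
theorem len_sq_le (x : V n L) (i : Fin n) : (x i).len ^ 2 ≤ nsq x :=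
  Finset.single_le_sum (f := fun i => (x i).len ^ 2) (fun _ _ => sq_nonneg _) (Finset.mem_univ i)
theorem nsq_eq_zero {x : V n L} : nsq x = 0 ↔ ∀ i, (x i).len = 0 := by
  rw [nsq, Finset.sum_eq_zero_iff_of_nonneg fun _ _ => sq_nonneg _]
  simp
theorem ip_zero_left {x : V n L} (h : nsq x = 0) (y : V n L) : ip x y = 0 :=
  Finset.sum_eq_zero fun i _ => T.ip_zero_left (nsq_eq_zero.1 h i) _
theorem d_eq_zero {x y : V n L} (h : dsq x y ≤ 0) (i : Fin n) : T.d (x i) (y i) = 0 := by
  have := (Finset.sum_eq_zero_iff_of_nonneg fun _ _ => sq_nonneg _).1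
    (le_antisymm h (dsq_nonneg x y)) i (Finset.mem_univ i)
  simpa using this
theorem dist_lt_of_dsq {x y : V n L} {ε : ℝ} (hε : 0 < ε) (h : dsq x y < ε ^ 2) :
    Dist.dist x y < ε := by
  refine (dist_pi_lt_iff hε).2 fun i => ?_
  have : T.d (x i) (y i) ^ 2 ≤ dsq x y :=
    Finset.single_le_sum (f := fun i => T.d (x i) (y i) ^ 2) (fun _ _ => sq_nonneg _)
      (Finset.mem_univ i)
  exact lt_of_pow_lt_pow_left₀ 2 hε.le (this.trans_lt h)

theorem continuous_len (i : Fin n) : Continuous fun x : V n L => (x i).len :=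
  T.continuous_len.comp (continuous_apply i)
theorem continuous_sg (l : L) (i : Fin n) : Continuous fun x : V n L => T.sg l (x i) :=
  (T.continuous_sg l).comp (continuous_apply i)
theorem continuous_ip (u : V n L) : Continuous (ip u) :=
  continuous_finsetSum _ fun i _ => continuous_const.mul (continuous_sg _ i)
theorem continuous_ip' (u : V n L) : Continuous fun x => ip x u := by
  simp only [ip_comm _ u]; exact continuous_ip u
theorem continuous_nsq : Continuous (nsq : V n L → ℝ) :=
  continuous_finsetSum _ fun i _ => (continuous_len i).pow 2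

theorem mem_of_dsq {C : Set (V n L)} (hC : _root_.IsClosed C) {x y : V n L} (hx : x ∈ C)
    (h : dsq x y ≤ 0) : y ∈ C := by
  rw [← hC.closure_eq, Metric.mem_closure_iff]
  refine fun ε hε => ⟨x, hx, ?_⟩
  rw [dist_comm]
  exact dist_lt_of_dsq hε (h.trans_lt (by positivity))

/-- existence of minima of uniformly convex functions -/
theorem exists_min {D : Set (V n L)} (hD : D.Nonempty) {Q : V n L → ℝ} (hQ : Continuous Q)
    {B : ℝ} (hB : ∀ x ∈ D, B ≤ Q x)
    (hmid : ∀ x ∈ D, ∀ y ∈ D, ∃ z ∈ D, Q z ≤ (Q x + Q y) / 2 - dsq x y / 4) :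
    ∃ c ∈ closure D, ∀ x ∈ closure D, Q c ≤ Q x := by
  have hb : BddBelow (Q '' D) := ⟨B, by rintro _ ⟨x, hx, rfl⟩; exact hB x hx⟩
  obtain ⟨f, -, hf, hm⟩ := exists_seq_tendsto_sInf (hD.image Q) hb
  choose u hu hQu using hm
  have hle : ∀ x ∈ D, sInf (Q '' D) ≤ Q x := fun x hx => csInf_le hb ⟨x, hx, rfl⟩
  have hc : CauchySeq u := by
    refine Metric.cauchySeq_iff.2 fun ε hε => ?_
    obtain ⟨N, hN⟩ := Metric.tendsto_atTop.1 hf (ε ^ 2 / 4) (by positivity)
    refine ⟨N, fun a ha b hb' => dist_lt_of_dsq hε ?_⟩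
    obtain ⟨z, hz, h⟩ := hmid _ (hu a) _ (hu b)
    have h1 := (abs_lt.1 (Real.dist_eq _ _ ▸ hN a ha)).2
    have h2 := (abs_lt.1 (Real.dist_eq _ _ ▸ hN b hb')).2
    rw [hQu, hQu] at h
    linarith [hle z hz]
  obtain ⟨c, hc'⟩ := cauchySeq_tendsto_of_complete hc
  have h1 : Q c = sInf (Q '' D) :=
    tendsto_nhds_unique ((hQ.tendsto c).comp hc') (by
      have : Q ∘ u = f := funext hQu
      rwa [this])
  refine ⟨c, mem_closure_of_tendsto hc' (Eventually.of_forall hu), fun x hx => ?_⟩
  rw [h1]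
  exact closure_minimal hle (isClosed_le continuous_const hQ) hx

/-- closed convex cones -/
structure IsCone (C : Set (V n L)) : Prop where
  closed : _root_.IsClosed C
  ne : C.Nonempty
  smul : ∀ a : ℝ, 0 ≤ a → ∀ x ∈ C, smul a x ∈ C
  add : ∀ x ∈ C, ∀ y ∈ C, add x y ∈ C

theorem nonneg_of_small {A B : ℝ} (h : ∀ ε : ℝ, 0 < ε → ε ≤ 1 → 0 ≤ A + ε * B) : 0 ≤ A := by
  by_contra hA
  have hA' := not_le.1 hA
  have h1 : 0 < |B| + 1 := by positivity
  have h2 := h (min 1 (-A / (|B| + 1))) (lt_min one_pos (div_pos (by linarith) h1))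
    (min_le_left _ _)
  have h3 : min 1 (-A / (|B| + 1)) * (|B| + 1) ≤ -A :=
    (le_div_iff₀ h1).1 (min_le_right _ _)
  have h4 : 0 < min 1 (-A / (|B| + 1)) := lt_min one_pos (div_pos (by linarith) h1)
  nlinarith [le_abs_self B]

theorem nsq_mid (x y : V n L) :
    nsq (smul (1 / 2) (add x y)) = (nsq x + nsq y) / 2 - dsq x y / 4 := by
  rw [nsq_smul (by norm_num), nsq_add, dsq_eq]; ring

/-- projection to a closed convex cone -/
theorem IsCone.proj {C : Set (V n L)} (hC : IsCone C) (u : V n L) :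
    ∃ p ∈ C, (∀ g ∈ C, ip u g ≤ ip p g) ∧ nsq p = ip u p := by
  obtain ⟨p, hp, h⟩ := exists_min hC.ne (Q := fun x => nsq x - 2 * ip u x)
    (continuous_nsq.sub (continuous_const.mul (continuous_ip u))) (B := -nsq u)
    (fun x _ => by have := dsq_nonneg u x; rw [dsq_eq] at this; linarith)
    (fun x hx y hy => ⟨_, hC.smul (1 / 2) (by norm_num) _ (hC.add x hx y hy), by
      rw [nsq_mid, ip_smul (by norm_num)]
      linarith [ip_add u x y]⟩)
  rw [hC.closed.closure_eq] at hp h
  have h1 : ∀ g ∈ C, ip u g ≤ ip p g := fun g hg => by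
    have : 0 ≤ 2 * (ip p g - ip u g) := nonneg_of_small (B := nsq g) fun ε hε _ => by
      have h2 := h _ (hC.add p hp _ (hC.smul ε hε.le g hg))
      have h3 := ip_add u p (A1.smul ε g)
      simp only [nsq_add, nsq_smul hε.le, ip_smul hε.le] at h2 h3
      refine le_of_mul_le_mul_left (a := ε) ?_ hε
      nlinarith
    linarith
  refine ⟨p, hp, h1, le_antisymm ?_ (ip_self p ▸ h1 p hp)⟩
  have : 0 ≤ 2 * (ip u p - nsq p) := nonneg_of_small (B := nsq p) fun ε hε h1 => by
    have h2 := h _ (hC.smul (1 - ε) (by linarith) p hp)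
    simp only [nsq_smul (sub_nonneg.2 h1), ip_smul (sub_nonneg.2 h1)] at h2
    refine le_of_mul_le_mul_left (a := ε) ?_ hε
    nlinarith
  linarith

end Pool.Agent.P.MP_8ecd01_al.A1
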