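import Mathlib

/-!
The geometric realization `Δ(R)` of a spherical building of type `A1 × ... × A1` (`n` factors),
each factor having the set `L` of chambers. For `L` the projective line over `k` this is the
building of `SL2(k)^n`: the vertex `(i, l)` is the maximal parabolic subgroup of the elements whose
`i`-th component fixes the line `l`, and a maximal torus is the stabilizer of two families `p`, `q`
of lines with `p i ≠ q i`.
-/

namespace Pool.Agent.P.MP_8ecd01_al.A1

variable {n : ℕ} {L : Type}

open Classical in
/-- The point with coordinates `v` in the apartment `(p, q)`, recorded by its weight at each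
vertex `(i, l)`: weight `v i` at `(i, p i)` if `v i > 0`, weight `-v i` at `(i, q i)` if
`v i < 0`. -/
noncomputable def pt (p q : Fin n → L) (v : Fin n → ℝ) : Fin n → L → ℝ :=
  fun i l => if l = p i then max (v i) 0 else if l = q i then max (-v i) 0 else 0

/-- `(p, q)` is a pair of opposite chambers; it spans an apartment. -/
def Apt (p q : Fin n → L) : Prop := ∀ i, p i ≠ q i

variable (n L) in
/-- The spherical building: the union of the unit spheres of the apartments. -/
def Delta : Type :=
  {x : Fin n → L → ℝ // ∃ p q v, Apt p q ∧ ∑ i, v i ^ 2 = 1 ∧ x = pt p q v}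

/-- The angular distance, measured in a common apartment. -/
noncomputable def dist (x y : Delta n L) : ℝ :=
  sInf {θ | ∃ p q v w, Apt p q ∧ x.1 = pt p q v ∧ y.1 = pt p q w ∧
    θ = Real.arccos (∑ i, v i * w i)}

/-- Opposite points: antipodal in some common apartment. -/
def Opp (x y : Delta n L) : Prop :=
  ∃ p q v, Apt p q ∧ x.1 = pt p q v ∧ y.1 = pt p q (-v)

/-- Convex sets contain the geodesic between any two of their non-opposite points. -/
def IsConvex (S : Set (Delta n L)) : Prop :=
  ∀ (p q : Fin n → L) (v w : Fin n → ℝ) (a b : ℝ) (x y z : Delta n L), Apt p q →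
    x.1 = pt p q v → y.1 = pt p q w → z.1 = pt p q (a • v + b • w) → 0 ≤ a → 0 ≤ b →
    x ∈ S → y ∈ S → ¬ Opp x y → z ∈ S

/-- Closed sets for the angular distance. -/
def IsClosed (S : Set (Delta n L)) : Prop :=
  ∀ z : Delta n L, (∀ ε : ℝ, 0 < ε → ∃ x ∈ S, dist z x < ε) → z ∈ S

/-- The closed simplex with vertices `(i, p i)`, `i ∈ I`. -/
def simplex (I : Set (Fin n)) (p : Fin n → L) : Set (Delta n L) :=
  {x | ∀ i l, x.1 i l ≠ 0 → i ∈ I ∧ l = p i}

/-- Building automorphisms: isometries permuting the closed simplices. -/
def IsAut (β : Equiv.Perm (Delta n L)) : Prop :=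
  (∀ x y, dist (β x) (β y) = dist x y) ∧
  (∀ I p, ∃ J q, β '' simplex I p = simplex J q) ∧ (∀ J q, ∃ I p, β '' simplex I p = simplex J q)

end Pool.Agent.P.MP_8ecd01_al.A1
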