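import Pool.Agent.P.MP_8ecd01_al.A1.Transfer

/-! A finite union of simplicial cones that contains all wall crossing points is convex. -/

namespace Pool.Agent.P.MP_8ecd01_al.A1

open Filter Topology

variable {n : ℕ} {L ι : Type} [Fintype ι] {g : ι → V n L}

/-- `x` is a combination without cancellation, with coefficients `c` -/
def Comb (g : ι → V n L) (c : ι → ℝ) (x : V n L) : Prop :=
  (∀ j, 0 ≤ c j) ∧ (∀ j, 0 < c j → ∀ i, 0 < (g j i).len → (x i).leg = (g j i).leg) ∧
    ∀ i, (x i).len = ∑ j, c j * (g j i).len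

/-- combinations without cancellation -/
def Hull (g : ι → V n L) : Set (V n L) := {x | ∃ c, Comb g c x}

theorem Comb.le {c : ι → ℝ} {x : V n L} (h : Comb g c x) (j : ι) (i : Fin n) :
    c j * (g j i).len ≤ (x i).len := by
  rw [h.2.2 i]
  exact Finset.single_le_sum (f := fun j => c j * (g j i).len)
    (fun j _ => mul_nonneg (h.1 j) (g j i).len_nonneg) (Finset.mem_univ j)

theorem Comb.sg {c : ι → ℝ} {x : V n L} (h : Comb g c x) (i : Fin n) (l : L) :
    T.sg l (x i) = ∑ j, c j * T.sg l (g j i) := by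
  classical
  have key : ∀ j, c j * T.sg l (g j i) =
      (if (x i).leg = l then 1 else -1) * (c j * (g j i).len) := fun j => by
    rcases (h.1 j).eq_or_lt with h1 | h1
    · simp [← h1]
    rcases (g j i).len_nonneg.eq_or_lt with h2 | h2
    · simp [← h2, T.sg_zero _ h2.symm]
    rw [h.2.1 j h1 i h2, T.sg]
    split_ifs <;> ring
  simp only [key, ← Finset.mul_sum, ← h.2.2 i]
  rw [T.sg]
  split_ifs <;> ring

theorem isClosed_hull (h0 : ∀ j, ∃ i, 0 < (g j i).len) : _root_.IsClosed (Hull g) := by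
  refine IsSeqClosed.isClosed fun u x hu hx => ?_
  choose c hc using hu
  choose i0 hi0 using h0
  have hb : ∀ i, ∃ B, ∀ k, (u k i).len ≤ B := fun i => by
    obtain ⟨B, hB⟩ := (((continuous_len i).tendsto x).comp hx).bddAbove_range
    exact ⟨B, fun k => hB ⟨k, rfl⟩⟩
  choose B hB using hb
  obtain ⟨a, ha, φ, hφ, hlim⟩ := (isCompact_Icc (a := (0 : ι → ℝ))
    (b := fun j => B (i0 j) / (g j (i0 j)).len)).tendsto_subseq (x := c) fun k =>
      ⟨(hc k).1, fun j => (le_div_iff₀ (hi0 j)).2 (((hc k).le j _).trans (hB _ k))⟩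
  have hx' := hx.comp hφ.tendsto_atTop
  have hl : ∀ i, (x i).len = ∑ j, a j * (g j i).len := fun i =>
    tendsto_nhds_unique (((continuous_len i).tendsto x).comp hx') (by
      have : Tendsto (fun k => ∑ j, c (φ k) j * (g j i).len) atTop
          (𝓝 (∑ j, a j * (g j i).len)) :=
        tendsto_finsetSum _ fun j _ => (tendsto_pi_nhds.1 hlim j).mul_const _
      exact this.congr fun k => ((hc (φ k)).2.2 i).symm)
  refine ⟨a, ha.1, fun j hj i hi => ?_, hl⟩
  have h1 : 0 < (x i).len := by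
    rw [hl i]
    exact lt_of_lt_of_le (mul_pos hj hi) (Finset.single_le_sum (f := fun j => a j * (g j i).len)
      (fun j _ => mul_nonneg (ha.1 j) (g j i).len_nonneg) (Finset.mem_univ j))
  have e1 : ∀ᶠ k in atTop, 0 < c (φ k) j := (tendsto_pi_nhds.1 hlim j).eventually_const_lt hj
  have e2 : ∀ᶠ k in atTop, Dist.dist (u (φ k) i) (x i) < (x i).len :=
    Metric.tendsto_nhds.1 (tendsto_pi_nhds.1 hx' i) _ h1
  obtain ⟨k, k1, k2⟩ := (e1.and e2).exists
  rw [dist_comm] at k2
  rw [← T.leg_eq_of_d_lt k2]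
  exact (hc (φ k)).2.1 j k1 i hi

theorem add_mem_hull [Nontrivial L] (h0 : ∀ j, ∃ i, 0 < (g j i).len)
    (hx : ∀ j k i, 0 < (g j i).len → 0 < (g k i).len → (g j i).leg ≠ (g k i).leg →
      add (smul (g k i).len (g j)) (smul (g j i).len (g k)) ∈ Hull g)
    {x y : V n L} (h1 : x ∈ Hull g) (h2 : y ∈ Hull g) : add x y ∈ Hull g := by
  classical
  obtain ⟨p, q, v, w, h, ex, ey⟩ := exists_apt x y
  have ez := enc_add h ex ey
  set A : ι → Prop := fun j => ∀ i, 0 < (g j i).len → (g j i).leg = p i ∨ (g j i).leg = q i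
    with hA
  have hcA : ∀ {c z u}, Comb g c z → enc z = pt p q u → (∀ j, ¬ A j → c j = 0) ∧
      ∀ i, ∑ j, c j * T.sg (p i) (g j i) = u i := fun {c z u} hc e =>
    ⟨fun j hj => by_contra fun h3 => hj fun i hi => by
      have h4 := lt_of_le_of_ne (hc.1 j) (Ne.symm h3)
      rw [← hc.2.1 j h4 i hi]
      exact leg_of_pt e i ((mul_pos h4 hi).trans_le (hc.le j i)),
    fun i => by rw [← hc.sg, sg_of_pt h e]⟩
  set N : ι → ℝ := fun j => ∑ i, (g j i).len with hN
  have hN0 : ∀ j, 0 < N j := fun j => let ⟨i, hi⟩ := h0 j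
    Finset.sum_pos' (fun i _ => (g j i).len_nonneg) ⟨i, Finset.mem_univ i, hi⟩
  obtain ⟨c1, hc1⟩ := h1
  obtain ⟨c2, hc2⟩ := h2
  set M := ∑ j, (c1 + c2) j * N j with hM
  set F : Set (ι → ℝ) := {c | (∀ j, 0 ≤ c j) ∧ (∀ j, ¬ A j → c j = 0) ∧
    (∀ i, ∑ j, c j * T.sg (p i) (g j i) = (v + w) i) ∧ ∑ j, c j * N j ≤ M} with hF
  have hFc : IsCompact F := by
    refine (isCompact_Icc (a := (0 : ι → ℝ)) (b := fun j => M / N j)).of_isClosed_subset ?_
      fun c hc => ⟨hc.1, fun j => (le_div_iff₀ (hN0 j)).2 (le_trans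
        (Finset.single_le_sum (f := fun j => c j * N j)
          (fun j _ => mul_nonneg (hc.1 j) (hN0 j).le) (Finset.mem_univ j)) hc.2.2.2)⟩
    simp only [hF, Set.ofPred_and, Set.ofPred_forall]
    exact (isClosed_iInter fun j => isClosed_le continuous_const (continuous_apply j)).inter
      ((isClosed_iInter fun j => isClosed_iInter fun _ =>
        isClosed_eq (continuous_apply j) continuous_const).inter
      ((isClosed_iInter fun i => isClosed_eq (by fun_prop) continuous_const).inter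
        (isClosed_le (by fun_prop) continuous_const)))
  have hne : c1 + c2 ∈ F := ⟨fun j => add_nonneg (hc1.1 j) (hc2.1 j), fun j hj => by
    simp [(hcA hc1 ex).1 j hj, (hcA hc2 ey).1 j hj], fun i => by
    simp only [Pi.add_apply, add_mul, Finset.sum_add_distrib, (hcA hc1 ex).2 i,
      (hcA hc2 ey).2 i], le_rfl⟩
  obtain ⟨c, hc, hmin⟩ := hFc.exists_isMinOn ⟨_, hne⟩ (f := fun c => ∑ j, c j * N j) (by fun_prop)
  have hAc : ∀ j, 0 < c j → A j := fun j hj => by_contra fun h3 => hj.ne' (hc.2.1 j h3)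
  have nc : ∀ j k i, 0 < c j → 0 < c k → 0 < (g j i).len → 0 < (g k i).len →
      (g j i).leg = (g k i).leg := by
    intro j k i cj ck a0 b0
    by_contra hl
    obtain ⟨c', hc'⟩ := hx j k i a0 b0 hl
    set a := (g j i).len with ha
    set b := (g k i).len with hb
    have hjk : j ≠ k := by rintro rfl; exact hl rfl
    have e1 := enc_add h (x := smul b (g j)) (y := smul a (g k))
      (by rw [enc_smul b0.le, enc_eq_pt h (hAc j cj), ← pt_smul b0.le])
      (by rw [enc_smul a0.le, enc_eq_pt h (hAc k ck), ← pt_smul a0.le])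
    obtain ⟨f1, f2⟩ := hcA hc' e1
    set t := min (c j / b) (c k / a) with ht
    have t0 : 0 < t := lt_min (div_pos cj b0) (div_pos ck a0)
    have t1 : t * b ≤ c j := (le_div_iff₀ b0).1 (min_le_left _ _)
    have t2 : t * a ≤ c k := (le_div_iff₀ a0).1 (min_le_right _ _)
    set c'' : ι → ℝ := fun r => c r - (if r = j then t * b else 0) - (if r = k then t * a else 0)
      + t * c' r with hc''
    have hs : ∀ f : ι → ℝ, ∑ r, c'' r * f r =
        ∑ r, c r * f r - t * b * f j - t * a * f k + t * ∑ r, c' r * f r := fun f => by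
      simp only [hc'', add_mul, sub_mul, Finset.sum_add_distrib, Finset.sum_sub_distrib, ite_mul,
        zero_mul, Finset.sum_ite_eq', Finset.mem_univ, if_true, Finset.mul_sum, mul_assoc]
    have g1 : ∑ r, c' r * N r < b * N j + a * N k := by
      have : ∑ r, c' r * N r = ∑ i', (add (smul b (g j)) (smul a (g k)) i').len := by
        simp only [hN, Finset.mul_sum, hc'.2.2]
        exact Finset.sum_comm
      rw [this, hN, Finset.mul_sum, Finset.mul_sum, ← Finset.sum_add_distrib]
      refine Finset.sum_lt_sum (fun i' _ => ?_) ⟨i, Finset.mem_univ i, ?_⟩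
      · simp only [add, T.len_add]
        refine (abs_add_le _ _).trans (le_of_eq ?_)
        rw [T.abs_sg, abs_of_nonneg (T.len_nonneg _)]
        simp only [smul, T.len_smul a0.le, T.len_smul b0.le]
      · simp only [add, T.len_add, smul, T.leg_smul, T.len_smul b0.le, T.sg_smul a0.le,
          T.sg_of_ne (Ne.symm hl), ← ha, ← hb]
        rw [show b * a + a * -b = 0 by ring, abs_zero]
        positivity
    have g2 : ∑ r, c'' r * N r < ∑ r, c r * N r := by
      rw [hs]; nlinarith
    have g3 : c'' ∈ F := ⟨fun r => by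
      have a1 := mul_nonneg t0.le (hc'.1 r)
      have a2 := hc.1 r
      simp only [hc'']
      by_cases r1 : r = j
      · rw [if_pos r1, if_neg (r1 ▸ hjk), r1]; rw [r1] at a1; linarith
      · rw [if_neg r1]
        by_cases r2 : r = k
        · rw [if_pos r2, r2]; rw [r2] at a1; linarith
        · rw [if_neg r2]; linarith, fun r hr => by
      have r1 : r ≠ j := by rintro rfl; exact hr (hAc _ cj)
      have r2 : r ≠ k := by rintro rfl; exact hr (hAc _ ck)
      simp [hc'', r1, r2, hc.2.1 r hr, f1 r hr], fun i' => by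
      rw [hs, hc.2.2.1 i', f2 i']
      simp only [Pi.add_apply, Pi.smul_apply, smul_eq_mul]; ring, g2.le.trans hc.2.2.2⟩
    exact absurd (hmin g3) (not_le.2 g2)
  have hz : ∀ i l, l = p i ∨ l = q i → T.sg l (add x y i) = ∑ j, c j * T.sg l (g j i) := by
    have hp : ∀ i, T.sg (p i) (add x y i) = ∑ j, c j * T.sg (p i) (g j i) := fun i => by
      rw [hc.2.2.1 i, sg_of_pt h ez]
    rintro i l (rfl | rfl)
    · exact hp i
    · have a1 := sg_flat (h i) (leg_of_pt ez i)
      have a2 : ∑ j, c j * T.sg (p i) (g j i) + ∑ j, c j * T.sg (q i) (g j i) = 0 := by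
        rw [← Finset.sum_add_distrib]
        refine Finset.sum_eq_zero fun j _ => ?_
        rcases (hc.1 j).eq_or_lt with h3 | h3
        · simp [← h3]
        · rw [← mul_add, sg_flat (h i) (hAc j h3 i), mul_zero]
      linarith [hp i]
  have hz' : ∀ j i, 0 < c j → 0 < (g j i).len →
      T.sg (g j i).leg (add x y i) = ∑ k, c k * (g k i).len := fun j i cj a0 => by
    rw [hz i _ (hAc j cj i a0)]
    refine Finset.sum_congr rfl fun k _ => ?_
    rcases (hc.1 k).eq_or_lt with h3 | h3
    · simp [← h3]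
    rcases (g k i).len_nonneg.eq_or_lt with h4 | h4
    · rw [T.sg_zero _ h4.symm, ← h4]
    · rw [T.sg_of_eq (nc k j i h3 cj h4 a0)]
  have hnn : ∀ i k, 0 ≤ c k * (g k i).len := fun i k => mul_nonneg (hc.1 k) (g k i).len_nonneg
  refine ⟨c, hc.1, fun j cj i a0 => T.leg_eq_of_sg_pos ?_, fun i => ?_⟩
  · rw [hz' j i cj a0]
    exact Finset.sum_pos' (fun k _ => hnn i k) ⟨j, Finset.mem_univ j, mul_pos cj a0⟩
  · by_cases h3 : ∃ j, 0 < c j ∧ 0 < (g j i).len
    · obtain ⟨j, cj, a0⟩ := h3
      rw [← T.abs_sg (g j i).leg, hz' j i cj a0,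
        abs_of_nonneg (Finset.sum_nonneg fun k _ => hnn i k)]
    · have h4 : ∀ j, c j = 0 ∨ (g j i).len = 0 := fun j => by
        by_contra h5
        rw [not_or] at h5
        exact h3 ⟨j, lt_of_le_of_ne (hc.1 j) (Ne.symm h5.1),
          lt_of_le_of_ne (g j i).len_nonneg (Ne.symm h5.2)⟩
      rw [← T.abs_sg (p i), hz i _ (Or.inl rfl), Finset.sum_eq_zero, Finset.sum_eq_zero, abs_zero]
      · intro j _; rcases h4 j with h5 | h5 <;> simp [h5]
      · intro j _; rcases h4 j with h5 | h5 <;> simp [h5, T.sg_zero]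

theorem mem_hull_self (j : ι) : g j ∈ Hull g := by
  classical
  refine ⟨fun r => if r = j then 1 else 0, fun r => by dsimp only; split_ifs <;> simp,
    fun r hr i _ => ?_,
    fun i => by simp⟩
  by_cases h : r = j
  · rw [h]
  · simp [h] at hr

theorem isCone_hull [Nontrivial L] [Nonempty ι] (h0 : ∀ j, ∃ i, 0 < (g j i).len)
    (hx : ∀ j k i, 0 < (g j i).len → 0 < (g k i).len → (g j i).leg ≠ (g k i).leg →
      add (smul (g k i).len (g j)) (smul (g j i).len (g k)) ∈ Hull g) : IsCone (Hull g) where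
  closed := isClosed_hull h0
  ne := ⟨_, mem_hull_self (Classical.arbitrary ι)⟩
  smul a ha x := by
    rintro ⟨c, hc⟩
    refine ⟨fun j => a * c j, fun j => mul_nonneg ha (hc.1 j), fun j hj =>
      hc.2.1 j (lt_of_le_of_ne (hc.1 j) fun h => by simp [← h] at hj), fun i => ?_⟩
    simp only [smul, T.len_smul ha, hc.2.2 i, Finset.mul_sum, mul_assoc]
  add _ h1 _ h2 := add_mem_hull h0 hx h1 h2

/-- the directions of a cone -/
def sphOf (C : Set (V n L)) : Set (Delta n L) := {a | rep a ∈ C}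

theorem sphOf_convex {C : Set (V n L)} (hC : IsCone C) : IsConvex (sphOf C) := by
  intro p q v w a b x y z h hx hy hz ha hb h1 h2 _
  refine mem_of_dsq hC.closed (hC.add _ (hC.smul a ha _ h1) _ (hC.smul b hb _ h2))
    (dsq_of_enc ?_)
  rw [enc_rep, hz]
  exact enc_add h (by rw [enc_smul ha, enc_rep, hx, pt_smul ha])
    (by rw [enc_smul hb, enc_rep, hy, pt_smul hb])

theorem sphOf_closed {C : Set (V n L)} (hC : IsCone C) : IsClosed (sphOf C) := by
  intro z hz
  refine hC.closed.closure_subset (Metric.mem_closure_iff.2 fun ε hε => ?_)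
  obtain ⟨x, hx, h⟩ := hz ε hε
  refine ⟨_, hx, dist_lt_of_dsq hε ?_⟩
  have h1 : 0 ≤ dist z x := by rw [dist_eq]; exact Real.arccos_nonneg _
  rw [dsq_eq, nsq_rep, nsq_rep, ← cos_dist]
  nlinarith [Real.one_sub_sq_div_two_le_cos (x := dist z x)]

end Pool.Agent.P.MP_8ecd01_al.A1
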