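import Pool.Agent.P.MP_8ecd01_al.A1.Mix

/-! Cones of diameter at most `π / 2` have a canonical point. -/

namespace Pool.Agent.P.MP_8ecd01_al.A1

open Filter Topology

variable {n : ℕ} {L : Type} {C N : Set (V n L)}

theorem exists_full (hN : IsCone N) (s : Finset (Fin n)) :
    ∃ c ∈ N, ∀ i ∈ s, ∀ y ∈ N, 0 < (y i).len → 0 < (c i).len := by
  classical
  induction s using Finset.induction_on with
  | empty => exact hN.ne.imp fun c hc => ⟨hc, by simp⟩
  | insert j s _ ih =>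
    obtain ⟨c, hc, h⟩ := ih
    by_cases hj : ∃ y ∈ N, 0 < (y j).len
    · obtain ⟨y, hy, py⟩ := hj
      have ev : ∀ᶠ ε : ℝ in 𝓝[>] 0, ∀ i, 0 < (c i).len → ε * (y i).len < (c i).len :=
        eventually_all.2 fun i => by
          by_cases hi : 0 < (c i).len
          · have : ∀ᶠ ε : ℝ in 𝓝 0, ε * (y i).len < (c i).len :=
              (continuous_id.mul continuous_const).continuousAt.eventually_lt
                continuousAt_const (by simpa using hi)
            exact (this.filter_mono nhdsWithin_le_nhds).mono fun b hb _ => hb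
          · exact Eventually.of_forall fun b h => absurd h hi
      obtain ⟨ε, h1, h2⟩ := (ev.and self_mem_nhdsWithin).exists
      have hε : 0 < ε := h2
      have key : ∀ i, 0 < (c i).len → 0 < (add c (smul ε y) i).len := fun i hi => by
        refine lt_of_lt_of_le ?_ (T.sg_le (c i).leg _)
        have a1 := h1 i hi
        have a2 := T.neg_le_sg (c i).leg (y i)
        simp only [add, smul, T.sg_add_left, T.sg_smul hε.le]
        nlinarith
      refine ⟨_, hN.add c hc _ (hN.smul ε hε.le y hy), fun i hi z hz pz => ?_⟩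
      rcases Finset.mem_insert.1 hi with rfl | hi
      · rcases (c i).len_nonneg.eq_or_lt with h0 | h0
        · simp only [add, smul, T.len_add, ← h0, zero_add, T.abs_sg, T.len_smul hε.le]
          positivity
        · exact key i h0
      · exact key i (h i hi z hz pz)
    · refine ⟨c, hc, fun i hi z hz pz => ?_⟩
      rcases Finset.mem_insert.1 hi with rfl | hi
      · exact absurd ⟨z, hz, pz⟩ hj
      · exact h i hi z hz pz

/-- the point of the chamber `σ` with the given lengths -/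
noncomputable def pos (σ : Fin n → L) (v : Fin n → ℝ) : V n L :=
  fun i => T.mk (σ i) |v i| (abs_nonneg _)

theorem continuous_pos (σ : Fin n → L) : Continuous (pos σ) :=
  continuous_pi fun i => (LipschitzWith.of_dist_le_mul (K := 1) fun v w => by
    rw [NNReal.coe_one, one_mul, T.dist_eq]
    simp only [pos, T.d, T.leg_mk, T.len_mk, if_true]
    exact (abs_abs_sub_abs_le_abs_sub _ _).trans (dist_le_pi_dist v w i)).continuous

theorem pos_mem (hN : IsCone N) {σ : Fin n → L} {v : Fin n → ℝ} {x : V n L} (hx : x ∈ N)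
    (hv : ∀ i, 0 ≤ v i) (h : ∀ i, T.sg (σ i) (x i) = v i) : pos σ v ∈ N := by
  refine mem_of_dsq hN.closed hx (le_of_eq (Finset.sum_eq_zero fun i _ => ?_))
  rw [← T.dist_eq, dist_comm, T.dist_eq, T.d_eq_sg, T.sg_self]
  simp [pos, h i, abs_of_nonneg (hv i)]

theorem ip_pos (σ : Fin n → L) {v : Fin n → ℝ} (hv : ∀ i, 0 ≤ v i) (y : V n L) :
    ip (pos σ v) y = ∑ i, v i * T.sg (σ i) (y i) :=
  Finset.sum_congr rfl fun i _ => by simp [pos, T.ip, abs_of_nonneg (hv i)]

theorem exists_unit {y : V n L} (hy : nsq y ≠ 0) :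
    0 < √(nsq y) ∧ nsq (smul (√(nsq y))⁻¹ y) = 1 := by
  have h := lt_of_le_of_ne (nsq_nonneg y) (Ne.symm hy)
  have h1 := Real.sqrt_pos.2 h
  refine ⟨h1, ?_⟩
  rw [nsq_smul (by positivity), inv_pow, Real.sq_sqrt h.le, inv_mul_cancel₀ hy]

theorem jung (hN : IsCone N) (h : ∀ x ∈ N, ∀ y ∈ N, 0 ≤ ip x y) :
    ∃ x ∈ N, ∀ y ∈ N, √(nsq y) ≤ ip x y := by
  classical
  obtain ⟨c, hc, hfull⟩ := exists_full hN Finset.univ
  set σ : Fin n → L := fun i => (c i).leg with hσ
  obtain ⟨δ, hδ, hδ'⟩ : ∃ δ : ℝ, 0 < δ ∧ ∀ i, 0 < (c i).len → δ ≤ (c i).len := by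
    have ev : ∀ᶠ ε : ℝ in 𝓝[>] 0, ∀ i, 0 < (c i).len → ε ≤ (c i).len :=
      eventually_all.2 fun i => by
        by_cases hi : 0 < (c i).len
        · exact ((eventually_le_nhds hi).filter_mono nhdsWithin_le_nhds).mono fun b hb _ => hb
        · exact Eventually.of_forall fun b h => absurd h hi
    obtain ⟨ε, h1, h2⟩ := (ev.and self_mem_nhdsWithin).exists
    exact ⟨ε, h2, h1⟩
  set P : Set (Fin n → ℝ) := {v | (∀ i, 0 ≤ v i) ∧ pos σ v ∈ N} with hP
  have hPc : _root_.IsClosed P := by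
    have : P = (⋂ i, {v | 0 ≤ v i}) ∩ pos σ ⁻¹' N := by ext v; simp [hP]
    rw [this]
    exact (isClosed_iInter fun i => isClosed_le continuous_const (continuous_apply i)).inter
      (hN.closed.preimage (continuous_pos σ))
  have hPadd : ∀ v ∈ P, ∀ w ∈ P, v + w ∈ P := fun v hv w hw =>
    ⟨fun i => add_nonneg (hv.1 i) (hw.1 i), pos_mem hN (hN.add _ hv.2 _ hw.2)
      (fun i => add_nonneg (hv.1 i) (hw.1 i)) fun i => by
        have := T.sg_add_left (pos σ v i) (pos σ w i)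
        simpa [pos, add, T.sg, abs_of_nonneg (hv.1 i), abs_of_nonneg (hw.1 i)] using this⟩
  have hP0 : (0 : Fin n → ℝ) ∈ P := ⟨fun _ => le_rfl, pos_mem hN (hN.smul 0 le_rfl c hc)
    (fun _ => le_rfl) fun i => by simp [smul, T.sg_smul]⟩
  set U : Set (Fin n → ℝ) := {v | ∃ y ∈ N, nsq y = 1 ∧ v = fun i => T.sg (σ i) (y i)} with hU
  set a : Fin n → ℝ := fun i => (c i).len with ha
  have hlen : ∀ y : V n L, nsq y = 1 → ∀ i, (y i).len ≤ 1 := fun y hy i => by
    have := len_sq_le y i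
    nlinarith [(y i).len_nonneg]
  have hK : IsCompact (closure U) := by
    refine (isCompact_Icc (a := fun _ : Fin n => (-1 : ℝ)) (b := fun _ => 1)).closure_of_subset ?_
    rintro _ ⟨y, -, hy, rfl⟩
    exact ⟨fun i => by linarith [T.neg_le_sg (σ i) (y i), hlen y hy i],
      fun i => (T.sg_le _ _).trans (hlen y hy i)⟩
  have k1 : ∀ v ∈ closure U, ∑ i, v i ^ 2 = 1 := fun v hv =>
    closure_minimal (s := U) (t := {v | ∑ i, v i ^ 2 = 1}) (by
      rintro _ ⟨y, -, hy, rfl⟩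
      simpa [T.sg_sq, nsq] using hy) (isClosed_eq (by fun_prop) continuous_const) hv
  have k2 : ∀ v ∈ closure U, a + δ • v ∈ P := fun v hv =>
    closure_minimal (s := U) (t := (fun v => a + δ • v) ⁻¹' P) (by
      rintro _ ⟨y, hy, hy1, rfl⟩
      have h0 : ∀ i, 0 ≤ (c i).len + δ * T.sg (σ i) (y i) := fun i => by
        rcases (y i).len_nonneg.eq_or_lt with h0 | h0
        · rw [T.sg_zero _ h0.symm]; simpa using (c i).len_nonneg
        · have a1 := hδ' i (hfull i (Finset.mem_univ i) y hy h0)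
          have a2 := T.neg_le_sg (σ i) (y i)
          have a3 := hlen y hy1 i
          nlinarith
      exact ⟨h0, pos_mem hN (hN.add c hc _ (hN.smul δ hδ.le y hy)) h0 fun i => by
        simp [add, smul, hσ, ha, T.sg_add_left, T.sg_smul hδ.le]⟩)
      (hPc.preimage (by fun_prop)) hv
  have k3 : ∀ x ∈ P, ∀ v ∈ closure U, 0 ≤ ∑ i, x i * v i := fun x hx v hv =>
    closure_minimal (s := U) (t := {v | 0 ≤ ∑ i, x i * v i}) (by
      rintro _ ⟨y, hy, -, rfl⟩
      have := h _ hx.2 y hy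
      rwa [ip_pos σ hx.1] at this) (isClosed_le continuous_const (by fun_prop)) hv
  have haP : a ∈ P := ⟨fun i => (c i).len_nonneg, pos_mem hN hc (fun i => (c i).len_nonneg)
    fun i => T.sg_self _⟩
  obtain ⟨t, ht⟩ := hK.elim_finite_subcover
    (fun x : P => {v : Fin n → ℝ | 0 < ∑ i, x.1 i * v i})
    (fun x => isOpen_lt continuous_const (by fun_prop)) (fun v hv =>
      Set.mem_iUnion.2 ⟨⟨_, k2 v hv⟩, by
        have a1 := k3 a haP v hv
        have a2 := k1 v hv
        have a3 : ∑ i, (a + δ • v) i * v i = ∑ i, a i * v i + δ * ∑ i, v i ^ 2 := by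
          rw [Finset.mul_sum, ← Finset.sum_add_distrib]
          exact Finset.sum_congr rfl fun i _ => by simp; ring
        show 0 < ∑ i, (a + δ • v) i * v i
        rw [a3, a2]; linarith⟩)
  set x : Fin n → ℝ := ∑ z ∈ t, z.1 with hx
  have hxP : x ∈ P := Finset.sum_induction _ (· ∈ P) (fun v w hv hw => hPadd v hv w hw) hP0
    fun z _ => z.2
  have hpos : ∀ v ∈ closure U, 0 < ∑ i, x i * v i := fun v hv => by
    obtain ⟨z, hz, hv'⟩ := Set.mem_iUnion₂.1 (ht hv)
    have e : ∑ i, x i * v i = ∑ z ∈ t, ∑ i, z.1 i * v i := by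
      rw [Finset.sum_comm]
      exact Finset.sum_congr rfl fun i _ => by rw [hx, Finset.sum_apply, Finset.sum_mul]
    rw [e]
    exact Finset.sum_pos' (fun z _ => k3 _ z.2 v hv) ⟨z, hz, hv'⟩
  obtain ⟨η, hη, hη'⟩ : ∃ η : ℝ, 0 < η ∧ ∀ v ∈ closure U, η ≤ ∑ i, x i * v i := by
    rcases (closure U).eq_empty_or_nonempty with h0 | h0
    · exact ⟨1, one_pos, by simp [h0]⟩
    · obtain ⟨v, hv, hmin⟩ := hK.exists_isMinOn h0 (f := fun v => ∑ i, x i * v i) (by fun_prop)
      exact ⟨_, hpos v hv, fun w hw => hmin hw⟩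
  refine ⟨_, hN.smul η⁻¹ (by positivity) _ hxP.2, fun y hy => ?_⟩
  rw [smul_ip (by positivity)]
  by_cases h0 : nsq y = 0
  · rw [h0, Real.sqrt_zero]
    exact mul_nonneg (by positivity) (h _ hxP.2 y hy)
  · obtain ⟨h1, h2⟩ := exists_unit h0
    have := hη' _ (subset_closure ⟨_, hN.smul _ (by positivity) y hy, h2, rfl⟩)
    rw [← ip_pos σ hxP.1, ip_smul (by positivity), le_inv_mul_iff₀ h1] at this
    rw [le_inv_mul_iff₀ hη]
    linarith

/-- a correspondence of `C` with itself that preserves inner products and permutes factors -/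
structure Iso (C : Set (V n L)) (σ : Equiv.Perm (Fin n)) (R : V n L → V n L → Prop) : Prop where
  tot : ∀ x ∈ C, ∃ y ∈ C, R x y
  sur : ∀ y ∈ C, ∃ x ∈ C, R x y
  ip : ∀ x y x' y', R x y → R x' y' → ip y y' = ip x x'
  len : ∀ x y, R x y → ∀ i, (y (σ i)).len = (x i).len

variable {σ : Equiv.Perm (Fin n)} {R : V n L → V n L → Prop}

theorem Iso.symm (h : Iso C σ R) : Iso C σ.symm fun y x => R x y :=
  ⟨h.sur, h.tot, fun _ _ _ _ a b => (h.ip _ _ _ _ a b).symm,
    fun _ _ a i => by simpa using (h.len _ _ a (σ.symm i)).symm⟩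

theorem Iso.nsq (h : Iso C σ R) {x y : V n L} (a : R x y) : nsq y = nsq x := by
  rw [← ip_self, ← ip_self, h.ip _ _ _ _ a a]

/-- invariant subsets -/
def Inv (C X : Set (V n L)) : Prop :=
  X ⊆ C ∧ ∀ σ R, Iso C σ R → ∀ x ∈ X, ∀ y ∈ C, R x y → y ∈ X

theorem Inv.iso {X : Set (V n L)} (hX : Inv C X) (h : Iso C σ R) : Iso X σ R :=
  ⟨fun x hx => let ⟨y, hy, a⟩ := h.tot x (hX.1 hx); ⟨y, hX.2 σ R h x hx y hy a, a⟩,
    fun y hy => let ⟨x, hx, a⟩ := h.sur y (hX.1 hy); ⟨x, hX.2 _ _ h.symm y hy x hx a, a⟩,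
    h.ip, h.len⟩

theorem Inv.trans {X Y : Set (V n L)} (hX : Inv C X) (hY : Inv X Y) : Inv C Y :=
  ⟨hY.1.trans hX.1, fun σ R h x hx y hy a =>
    hY.2 σ R (hX.iso h) x hx y (hX.2 σ R h x (hY.1 hx) y hy a) a⟩

/-- `C` has a nonzero point fixed by all symmetries -/
def HasFix (C : Set (V n L)) : Prop :=
  ∃ c ∈ C, nsq c ≠ 0 ∧ ∀ σ R, Iso C σ R → ∀ y ∈ C, R c y → dsq c y ≤ 0

theorem Inv.hasFix {X : Set (V n L)} (hX : Inv C X) (h : HasFix X) : HasFix C :=
  let ⟨c, hc, h0, h1⟩ := h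
  ⟨c, hX.1 hc, h0, fun σ R a y hy b => h1 σ R (hX.iso a) y (hX.2 σ R a c hc y hy b) b⟩

theorem hasFix_of_nonneg (hN : IsCone N) (h : ∀ x ∈ N, ∀ y ∈ N, 0 ≤ ip x y)
    (h0 : ∃ y ∈ N, nsq y ≠ 0) : HasFix N := by
  set D : Set (V n L) := {x | x ∈ N ∧ ∀ y ∈ N, √(nsq y) ≤ ip x y} with hD
  have hne : D.Nonempty := jung hN h
  have hcl : _root_.IsClosed D := by
    have : D = N ∩ ⋂ y ∈ N, {x | √(nsq y) ≤ ip x y} := by ext x; simp [hD]
    rw [this]
    exact hN.closed.inter (isClosed_biInter fun y _ =>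
      isClosed_le continuous_const (continuous_ip' y))
  have hmid : ∀ x ∈ D, ∀ x' ∈ D, smul (1 / 2) (add x x') ∈ D := fun x hx x' hx' =>
    ⟨hN.smul _ (by norm_num) _ (hN.add x hx.1 x' hx'.1), fun y hy => by
      have a1 := ip_add y x x'
      have a2 := hx.2 y hy
      have a3 := hx'.2 y hy
      rw [smul_ip (by norm_num), ip_comm]
      rw [ip_comm] at a2 a3
      linarith⟩
  obtain ⟨c, hc, hmin⟩ := exists_min hne continuous_nsq (B := 0) (fun x _ => nsq_nonneg x)
    fun x hx y hy => ⟨_, hmid x hx y hy, (nsq_mid x y).le⟩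
  rw [hcl.closure_eq] at hc hmin
  refine ⟨c, hc.1, fun h1 => ?_, fun σ R a y hy b => ?_⟩
  · obtain ⟨y, hy, h2⟩ := h0
    have := hc.2 y hy
    rw [ip_zero_left h1] at this
    linarith [(exists_unit h2).1]
  · have hyD : y ∈ D := ⟨hy, fun y' hy' => by
      obtain ⟨x', hx', b'⟩ := a.sur y' hy'
      rw [a.ip _ _ _ _ b b', a.nsq b']
      exact hc.2 x' hx'⟩
    have := hmin _ (hmid c hc y hyD)
    rw [nsq_mid, a.nsq b] at this
    linarith

end Pool.Agent.P.MP_8ecd01_al.A1
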