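import Pool.Agent.P.MP_8ecd01_al.A1.Cone

/-! Mixtures, barycentres and stable mixtures in a cone without centre. -/

namespace Pool.Agent.P.MP_8ecd01_al.A1

open Filter Topology

variable {n : ℕ} {L : Type} {C : Set (V n L)}

/-- signed masses of finite families of points of `C` -/
inductive Mix (C : Set (V n L)) : (Fin n → L → ℝ) → Prop
  | zero : Mix C 0
  | step {m : Fin n → L → ℝ} {g : V n L} : Mix C m → g ∈ C →
      Mix C (m + fun i l => T.sg l (g i))

theorem Mix.add {m m' : Fin n → L → ℝ} (h : Mix C m) (h' : Mix C m') : Mix C (m + m') := by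
  induction h' with
  | zero => simpa using h
  | step _ hg ih => rw [← add_assoc]; exact ih.step hg

theorem Mix.smul (hC : IsCone C) {a : ℝ} (ha : 0 ≤ a) {m : Fin n → L → ℝ} (h : Mix C m) :
    Mix C (a • m) := by
  induction h with
  | zero => simpa using Mix.zero
  | @step m g _ hg ih =>
    have := ih.step (hC.smul a ha g hg)
    have e : (a • m + fun i l => T.sg l (A1.smul a g i)) = a • (m + fun i l => T.sg l (g i)) := by
      funext i l
      simp [A1.smul, T.sg_smul ha, mul_add]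
    rwa [e] at this

theorem Mix.pair {m : Fin n → L → ℝ} (h : Mix C m) (i : Fin n) {l l' : L} (hl : l ≠ l') :
    m i l + m i l' ≤ 0 := by
  induction h with
  | zero => simp
  | @step m g _ _ ih =>
    have := T.sg_add_sg hl (g i)
    simp only [Pi.add_apply]
    linarith

theorem Mix.pair_eq {m : Fin n → L → ℝ} (h : Mix C m) (i : Fin n) {l l' : L}
    (hl : ∀ g ∈ C, T.sg l (g i) + T.sg l' (g i) = 0) : m i l + m i l' = 0 := by
  induction h with
  | zero => simp
  | @step m g _ hg ih =>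
    have := hl g hg
    simp only [Pi.add_apply]
    linarith

/-- pairing of a point with a mixture -/
noncomputable def pr (x : V n L) (m : Fin n → L → ℝ) : ℝ := ∑ i, (x i).len * m i (x i).leg

theorem pr_step (x g : V n L) (m : Fin n → L → ℝ) :
    pr x (m + fun i l => T.sg l (g i)) = pr x m + ip x g := by
  simp only [pr, ip, T.ip, Pi.add_apply, mul_add, Finset.sum_add_distrib]

theorem Mix.pr_le {m : Fin n → L → ℝ} (h : Mix C m) {b p : V n L} {a : ℝ}
    (hp : ∀ g ∈ C, a * ip b g ≤ ip p g) : a * pr b m ≤ pr p m := by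
  induction h with
  | zero => simp [pr]
  | @step m g _ hg ih => rw [pr_step, pr_step]; linarith [hp g hg]

/-- barycentre -/
def IsBar (m : Fin n → L → ℝ) (b : V n L) : Prop :=
  (∀ i l, m i l ≤ T.sg l (b i)) ∧ ∀ i, 0 < (b i).len → (b i).len = m i (b i).leg

theorem exists_bar [Nonempty L] {m : Fin n → L → ℝ}
    (h : ∀ i l l', l ≠ l' → m i l + m i l' ≤ 0) : ∃ b, IsBar m b := by
  have : ∀ i, ∃ s : T L, (∀ l, m i l ≤ T.sg l s) ∧ (0 < s.len → s.len = m i s.leg) := fun i => by
    by_cases h1 : ∃ l, 0 < m i l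
    · obtain ⟨l, hl⟩ := h1
      refine ⟨T.mk l (m i l) hl.le, fun l' => ?_, fun _ => rfl⟩
      by_cases h2 : l = l'
      · rw [T.sg_of_eq (by simpa using h2), T.len_mk, h2]
      · rw [T.sg_of_ne (by simpa using h2)]
        have := h i l l' h2
        simp only [T.len_mk]; linarith
    · refine ⟨T.mk (Classical.arbitrary L) 0 le_rfl, fun l => ?_, fun h => by simp at h⟩
      rw [T.sg_zero _ rfl]
      exact not_lt.1 fun h2 => h1 ⟨l, h2⟩
  choose b hb using this
  exact ⟨b, fun i => (hb i).1, fun i => (hb i).2⟩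

theorem IsBar.len_le {m : Fin n → L → ℝ} {b : V n L} (h : IsBar m b) {i : Fin n} {r : ℝ}
    (hr : 0 ≤ r) (hx : ∀ l, m i l ≤ r) : (b i).len ≤ r := by
  rcases (b i).len_nonneg.eq_or_lt with h0 | h0
  · rwa [← h0]
  · rw [h.2 i h0]; exact hx _

theorem IsBar.nsq_le {m : Fin n → L → ℝ} {b : V n L} (h : IsBar m b) {x : V n L}
    (hx : ∀ i l, m i l ≤ T.sg l (x i)) : nsq b ≤ nsq x :=
  Finset.sum_le_sum fun i _ => pow_le_pow_left₀ (b i).len_nonneg
    (h.len_le (x i).len_nonneg fun l => (hx i l).trans (T.sg_le _ _)) 2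

theorem IsBar.mem (hC : IsCone C) {m : Fin n → L → ℝ} (hm : Mix C m) {b : V n L}
    (h : IsBar m b) : b ∈ C := by
  obtain ⟨p, hp, h1, h2⟩ := hC.proj b
  have h3 := hm.pr_le (a := 1) (b := b) (p := p) (by simpa using h1)
  have h4 : pr b m = nsq b := Finset.sum_congr rfl fun i _ => by
    rcases (b i).len_nonneg.eq_or_lt with h0 | h0
    · simp [← h0]
    · rw [← h.2 i h0, sq]
  have h5 : pr p m ≤ ip p b := Finset.sum_le_sum fun i _ =>
    mul_le_mul_of_nonneg_left (h.1 i _) (p i).len_nonneg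
  refine mem_of_dsq hC.closed hp ?_
  rw [dsq_eq]
  rw [ip_comm] at h2
  linarith

/-- the cone uses three legs in the factor `i` -/
def Br (C : Set (V n L)) (i : Fin n) : Prop :=
  ∃ x ∈ C, ∃ y ∈ C, ∃ z ∈ C, 0 < (x i).len ∧ 0 < (y i).len ∧ 0 < (z i).len ∧
    (x i).leg ≠ (y i).leg ∧ (x i).leg ≠ (z i).leg ∧ (y i).leg ≠ (z i).leg

theorem Br.third {i : Fin n} {x y z : V n L} (h1 : (x i).leg ≠ (y i).leg)
    (h2 : (x i).leg ≠ (z i).leg) (h3 : (y i).leg ≠ (z i).leg) (l l' : L) :
    ((x i).leg ≠ l ∧ (x i).leg ≠ l') ∨ ((y i).leg ≠ l ∧ (y i).leg ≠ l') ∨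
      ((z i).leg ≠ l ∧ (z i).leg ≠ l') := by
  grind

theorem flat_legs [Nontrivial L] {i : Fin n} (h : ¬ Br C i) :
    ∃ l l' : L, l ≠ l' ∧ ∀ g ∈ C, 0 < (g i).len → (g i).leg = l ∨ (g i).leg = l' := by
  by_cases h1 : ∃ x ∈ C, 0 < (x i).len
  · obtain ⟨x, hx, hx'⟩ := h1
    by_cases h2 : ∃ y ∈ C, 0 < (y i).len ∧ (x i).leg ≠ (y i).leg
    · obtain ⟨y, hy, hy', hxy⟩ := h2
      refine ⟨_, _, hxy, fun g hg hg' => ?_⟩
      by_contra h3
      rw [not_or] at h3
      exact h ⟨x, hx, y, hy, g, hg, hx', hy', hg', hxy, Ne.symm h3.1, Ne.symm h3.2⟩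
    · obtain ⟨l', hl'⟩ := exists_ne (x i).leg
      refine ⟨_, _, hl'.symm, fun g hg hg' => Or.inl ?_⟩
      by_contra h3
      exact h2 ⟨g, hg, hg', Ne.symm h3⟩
  · obtain ⟨l, l', hl⟩ := exists_pair_ne L
    exact ⟨l, l', hl, fun g hg hg' => absurd ⟨g, hg, hg'⟩ h1⟩

theorem sg_flat {l l' : L} (hl : l ≠ l') {s : T L} (h : 0 < s.len → s.leg = l ∨ s.leg = l') :
    T.sg l s + T.sg l' s = 0 := by
  rcases s.len_nonneg.eq_or_lt with h0 | h0
  · rw [T.sg_zero _ h0.symm, T.sg_zero _ h0.symm, add_zero]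
  · rcases h h0 with h | h
    · rw [T.sg_of_eq h, T.sg_of_ne (h ▸ hl)]; ring
    · rw [T.sg_of_ne (h ▸ hl.symm), T.sg_of_eq h]; ring

theorem d_flat {l l' : L} (hl : l ≠ l') {s t : T L} (hs : 0 < s.len → s.leg = l ∨ s.leg = l')
    (ht : 0 < t.len → t.leg = l ∨ t.leg = l') : T.d s t = |T.sg l s - T.sg l t| := by
  rcases s.len_nonneg.eq_or_lt with h0 | h0
  · rw [T.sg_zero _ h0.symm, zero_sub, abs_neg, T.abs_sg, T.d_eq_sg, T.sg_zero _ h0.symm,
      zero_sub, abs_neg, T.abs_sg]
  · rw [T.d_eq_sg]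
    rcases hs h0 with h | h
    · rw [h]
    · rw [h, ← abs_neg]
      congr 1
      linarith [sg_flat hl hs, sg_flat hl ht]

/-- the cone has no centre -/
def NoCentre (C : Set (V n L)) : Prop := ∀ c ∈ C, (∀ g ∈ C, 0 ≤ ip c g) → nsq c = 0

theorem NoCentre.ip_eq (hC : IsCone C) (h : NoCentre C) {c : V n L} (hc : ∀ g ∈ C, 0 ≤ ip c g) :
    ∀ g ∈ C, ip c g = 0 := fun g hg => by
  obtain ⟨p, hp, h1, -⟩ := hC.proj c
  have h2 := h p hp fun g hg => (hc g hg).trans (h1 g hg)
  exact le_antisymm (ip_zero_left h2 g ▸ h1 g hg) (hc g hg)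

theorem exists_base (C : Set (V n L)) (s : Finset (Fin n)) : ∃ η : ℝ, 0 < η ∧ ∃ m, Mix C m ∧
    ∀ i ∈ s, Br C i → ∀ l l', l ≠ l' → m i l + m i l' ≤ -(2 * η) := by
  classical
  induction s using Finset.induction_on with
  | empty => exact ⟨1, one_pos, 0, Mix.zero, by simp⟩
  | insert j s _ ih =>
    obtain ⟨η, hη, m, hm, h⟩ := ih
    by_cases hj : Br C j
    · obtain ⟨x, hx, y, hy, z, hz, px, py, pz, h1, h2, h3⟩ := hj
      refine ⟨min η (min (x j).len (min (y j).len (z j).len)),
        lt_min hη (lt_min px (lt_min py pz)), _, ((hm.step hx).step hy).step hz,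
        fun i hi hb l l' hl => ?_⟩
      have a1 := T.sg_add_sg hl (x i)
      have a2 := T.sg_add_sg hl (y i)
      have a3 := T.sg_add_sg hl (z i)
      have b0 := min_le_left η (min (x j).len (min (y j).len (z j).len))
      have b1 := min_le_right η (min (x j).len (min (y j).len (z j).len))
      have b2 := min_le_left (x j).len (min (y j).len (z j).len)
      have b3 := min_le_right (x j).len (min (y j).len (z j).len)
      have b4 := min_le_left (y j).len (z j).len
      have b5 := min_le_right (y j).len (z j).len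
      simp only [Pi.add_apply]
      rcases Finset.mem_insert.1 hi with rfl | hi
      · have a0 := hm.pair i hl
        rcases Br.third h1 h2 h3 l l' with h4 | h4 | h4 <;>
        · have c1 := T.sg_of_ne h4.1
          have c2 := T.sg_of_ne h4.2
          linarith
      · linarith [h i hi hb l l' hl]
    · refine ⟨η, hη, m, hm, fun i hi hb => ?_⟩
      rcases Finset.mem_insert.1 hi with rfl | hi
      · exact absurd hb hj
      · exact h i hi hb

theorem len_zero_of_br (hC : IsCone C) {c : V n L} (hc : ∀ g ∈ C, ip c g = 0) {i : Fin n}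
    (hi : Br C i) : (c i).len = 0 := by
  have key : ∀ x ∈ C, ∀ y ∈ C, 0 < (x i).len → 0 < (y i).len → (x i).leg ≠ (y i).leg →
      (x i).leg ≠ (c i).leg → (y i).leg ≠ (c i).leg → (c i).len = 0 := by
    intro x hx y hy px py h1 h2 h3
    have e : ∑ j, (T.ip (c j) (add x y j) - T.ip (c j) (x j) - T.ip (c j) (y j)) = 0 := by
      simp only [Finset.sum_sub_distrib]
      have a1 := hc x hx
      have a2 := hc y hy
      have a3 := hc _ (hC.add x hx y hy)
      simp only [ip] at a1 a2 a3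
      rw [a1, a2, a3]; ring
    have e1 := (Finset.sum_eq_zero_iff_of_nonneg fun j _ => by
      have := mul_le_mul_of_nonneg_left (T.sg_add (c j).leg (x j) (y j)) (c j).len_nonneg
      simp only [T.ip, add]; linarith).1 e i (Finset.mem_univ i)
    have e2 : (T.add (x i) (y i)).leg ≠ (c i).leg := by
      rcases T.leg_add (x i) (y i) with h | h <;> rwa [h]
    simp only [T.ip, add] at e1
    rw [T.sg_of_ne h2, T.sg_of_ne h3, T.sg_of_ne e2, T.len_add, T.sg_of_ne h1.symm] at e1
    have e3 : |(x i).len + -(y i).len| < (x i).len + (y i).len :=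
      abs_lt.2 ⟨by linarith, by linarith⟩
    by_contra h0
    have := lt_of_le_of_ne (c i).len_nonneg (Ne.symm h0)
    nlinarith
  obtain ⟨x, hx, y, hy, z, hz, px, py, pz, h1, h2, h3⟩ := hi
  by_cases a1 : (x i).leg = (c i).leg
  · exact key y hy z hz py pz h3 (a1 ▸ h1.symm) (a1 ▸ h2.symm)
  by_cases a2 : (y i).leg = (c i).leg
  · exact key x hx z hz px pz h2 a1 (a2 ▸ h3.symm)
  · exact key x hx y hy px py h1 a1 a2

open Classical in
/-- a cone without centre has almost balanced mixtures that are stable in the branching factors -/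
theorem exists_mix [Nonempty L] (hC : IsCone C) (h : NoCentre C) : ∃ η : ℝ, 0 < η ∧
    ∀ ε : ℝ, 0 < ε → ∃ m, Mix C m ∧ ∀ i l, m i l + (if Br C i then η else 0) ≤ ε := by
  obtain ⟨η, hη, m0, hm0, h0⟩ := exists_base C Finset.univ
  set e : Fin n → L → ℝ := fun i _ => if Br C i then η else 0 with he
  have hex : ∀ m, Mix C m → ∃ b, IsBar (m0 + m + e) b := fun m hm => exists_bar fun i l l' hl => by
    have a1 := hm.pair i hl
    have a2 := hm0.pair i hl
    simp only [Pi.add_apply, he]
    split_ifs with hb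
    · linarith [h0 i (Finset.mem_univ i) hb l l' hl]
    · linarith
  set D : Set (V n L) := {b | ∃ m, Mix C m ∧ IsBar (m0 + m + e) b} with hD
  have hne : D.Nonempty := (hex 0 Mix.zero).imp fun b hb => ⟨0, Mix.zero, hb⟩
  obtain ⟨c, hc, hmin⟩ := exists_min hne continuous_nsq (B := 0) (fun x _ => nsq_nonneg x) (by
    rintro x ⟨m, hm, hx⟩ y ⟨m', hm', hy⟩
    have hm'' := (hm.add hm').smul hC (a := 1 / 2) (by norm_num)
    obtain ⟨z, hz⟩ := hex _ hm''
    refine ⟨z, ⟨_, hm'', hz⟩, nsq_mid x y ▸ hz.nsq_le fun i l => ?_⟩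
    have a1 := hx.1 i l
    have a2 := hy.1 i l
    have a3 := T.sg_add l (x i) (y i)
    simp only [smul, add, T.sg_smul (show (0 : ℝ) ≤ 1 / 2 by norm_num), Pi.add_apply,
      Pi.smul_apply, smul_eq_mul] at a1 a2 ⊢
    linarith)
  have hc1 : ∀ g ∈ C, 0 ≤ ip c g := fun g hg => by
    have : 0 ≤ 2 * ip c g := nonneg_of_small (B := nsq g) fun ε hε _ => by
      have h2 : ∀ x ∈ D, nsq c ≤ nsq x + ε ^ 2 * nsq g + 2 * (ε * ip x g) := by
        rintro x ⟨m, hm, hx⟩
        have hm' := hm.step (hC.smul ε hε.le g hg)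
        obtain ⟨z, hz⟩ := hex _ hm'
        refine (hmin z (subset_closure ⟨_, hm', hz⟩)).trans ?_
        rw [← nsq_smul hε.le, ← ip_smul hε.le, ← nsq_add]
        refine hz.nsq_le fun i l => ?_
        have a1 := hx.1 i l
        have a3 := T.sg_add l (x i) (smul ε g i)
        simp only [add, Pi.add_apply] at a1 ⊢
        linarith
      have h3 := closure_minimal h2 (isClosed_le continuous_const ((continuous_nsq.add
        continuous_const).add (continuous_const.mul (continuous_const.mul (continuous_ip' g))))) hc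
      refine le_of_mul_le_mul_left (a := ε) ?_ hε
      have h4 : nsq c ≤ nsq c + ε ^ 2 * nsq g + 2 * (ε * ip c g) := h3
      nlinarith
    linarith
  have hc2 := h.ip_eq hC hc1
  have hc3 : nsq c = 0 := by
    have ev : ∀ᶠ b in 𝓝 c, ∀ i, 0 < (c i).len → T.d (c i) (b i) < (c i).len :=
      eventually_all.2 fun i => by
        by_cases hi : 0 < (c i).len
        · have : ∀ᶠ b in 𝓝 c, Dist.dist (c i) (b i) < (c i).len :=
            (continuous_const.dist (continuous_apply i)).continuousAt.eventually_lt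
              continuousAt_const (by simpa using hi)
          exact this.mono fun b hb _ => hb
        · exact Eventually.of_forall fun b h => absurd h hi
    obtain ⟨b, hb, m, hm, hbar⟩ := mem_closure_iff_nhds.1 hc _ ev
    have hm' := hm0.add hm
    have p1 := hm'.pr_le (a := 1) (b := c) (p := smul 0 c) fun g hg => by
      rw [smul_ip le_rfl, hc2 g hg]; simp
    have p2 : pr (smul 0 c) (m0 + m) = 0 := by simp [pr, smul, T.len_smul]
    have p3 : ∀ i, 0 < (c i).len → 0 < (m0 + m) i (c i).leg := fun i hi => by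
      have q1 := hb i hi
      have q2 := (abs_le.1 (T.abs_len_sub (c i) (b i))).2
      have q3 : 0 < (b i).len := by linarith
      have q4 := hbar.2 i q3
      have q5 : ¬ Br C i := fun hbr => hi.ne' (len_zero_of_br hC hc2 hbr)
      rw [T.leg_eq_of_d_lt q1] at q4
      simp only [Pi.add_apply, he, q5, if_false, add_zero] at q4 ⊢
      linarith
    have p4 : ∀ i, 0 ≤ (c i).len * (m0 + m) i (c i).leg := fun i => by
      rcases (c i).len_nonneg.eq_or_lt with h0 | h0
      · rw [← h0, zero_mul]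
      · exact (mul_pos h0 (p3 i h0)).le
    refine nsq_eq_zero.2 fun i => ?_
    by_contra h1
    have h2 := lt_of_le_of_ne (c i).len_nonneg (Ne.symm h1)
    have := Finset.single_le_sum (f := fun i => (c i).len * (m0 + m) i (c i).leg)
      (fun i _ => p4 i) (Finset.mem_univ i)
    have h3 := mul_pos h2 (p3 i h2)
    rw [p2, one_mul, pr] at p1
    linarith
  refine ⟨η, hη, fun ε hε => ?_⟩
  obtain ⟨b, ⟨m, hm, hbar⟩, hb⟩ := Metric.mem_closure_iff.1 hc ε hε
  refine ⟨_, hm0.add hm, fun i l => (hbar.1 i l).trans ((T.sg_le _ _).trans ?_)⟩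
  have q1 : T.d (c i) (b i) < ε := (dist_le_pi_dist c b i).trans_lt hb
  have q2 := (abs_le.1 (T.abs_len_sub (c i) (b i))).1
  rw [nsq_eq_zero.1 hc3 i] at q2
  linarith

open Classical in
/-- the flat part of a point of a cone without centre lies in the cone -/
theorem flat_mem [Nontrivial L] (hC : IsCone C) (h : NoCentre C) {y : V n L} (hy : y ∈ C) :
    (fun i => if Br C i then T.smul 0 (y i) else y i) ∈ C := by
  obtain ⟨η, hη, hm⟩ := exists_mix hC h
  refine hC.closed.closure_subset (Metric.mem_closure_iff.2 fun ε hε => ?_)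
  set t : ℝ := 2 * (nsq y + 1) / η with ht
  have hy0 := nsq_nonneg y
  have ht0 : 0 < t := by positivity
  obtain ⟨m, hm, hm1⟩ := hm (min (η / 2) (ε / 2 / t)) (by positivity)
  have hm' := (hm.smul hC ht0.le).step hy
  obtain ⟨b, hb⟩ := exists_bar fun i l l' hl => hm'.pair i hl
  have hbC := hb.mem hC hm'
  refine ⟨b, hbC, (dist_pi_lt_iff hε).2 fun i => ?_⟩
  rw [T.dist_eq]
  split_ifs with hi
  · have h1 : (b i).len ≤ 0 := hb.len_le le_rfl fun l => by
      have a1 := hm1 i l
      rw [if_pos hi] at a1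
      have a2 : m i l ≤ -(η / 2) := by linarith [min_le_left (η / 2) (ε / 2 / t)]
      have a3 : t * (η / 2) = nsq y + 1 := by rw [ht]; field_simp
      have a4 := T.sg_le l (y i)
      have a5 := len_sq_le y i
      simp only [Pi.add_apply, Pi.smul_apply, smul_eq_mul]
      nlinarith [sq_nonneg ((y i).len - 1)]
    rw [T.d_eq_sg, T.sg_zero _ (le_antisymm h1 (b i).len_nonneg), T.sg_zero _ (by
      simp [T.len_smul])]
    simpa using hε
  · obtain ⟨l, l', hl, hf⟩ := flat_legs hi
    have hs : ∀ g ∈ C, T.sg l (g i) + T.sg l' (g i) = 0 := fun g hg => sg_flat hl (hf g hg)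
    rw [d_flat hl (hf y hy) (hf b hbC)]
    have a1 := hm.pair_eq i hs
    have a2 := hm1 i l
    have a3 := hm1 i l'
    rw [if_neg hi, add_zero] at a2 a3
    have a4 := hb.1 i l
    have a5 := hb.1 i l'
    have a6 := hs y hy
    have a7 := hs b hbC
    have a8 : t * (ε / 2 / t) = ε / 2 := by field_simp
    have a9 := min_le_right (η / 2) (ε / 2 / t)
    simp only [Pi.add_apply, Pi.smul_apply, smul_eq_mul] at a4 a5
    have b1 : t * m i l ≤ ε / 2 := a8 ▸ mul_le_mul_of_nonneg_left (a2.trans a9) ht0.le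
    have b2 : t * m i l' ≤ ε / 2 := a8 ▸ mul_le_mul_of_nonneg_left (a3.trans a9) ht0.le
    have b3 : t * m i l + t * m i l' = 0 := by rw [← mul_add, a1, mul_zero]
    exact abs_lt.2 ⟨by linarith, by linarith⟩

end Pool.Agent.P.MP_8ecd01_al.A1
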