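import Mathlib

/-! Integer data of a finitely generated convex cone in the vector building of type `A1^4`, and
the finite check that all wall crossing points of its generators lie in the cone. -/

namespace Pool.Agent.P.MP_8ecd01_al.A1

/-- integer points: a leg and a length in each coordinate -/
abbrev D := Fin 4 → Fin 4 × ℕ

/-- a template and an ordering of the four coordinates -/
structure Ix where
  /-- template -/
  t : ℕ
  /-- first -/
  i : Fin 4
  /-- second -/
  z : Fin 4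
  /-- third -/
  k : Fin 4
  /-- fourth -/
  l : Fin 4

/-- length at `i` -/
def tS (t : ℕ) : ℕ := [1, 2999, 40, 91, 373, 307, 214, 352, 241, 259].getD t 1
/-- length at `k` -/
def tU (t : ℕ) : ℕ := [0, 1000, 33, 67, 189, 195, 127, 240, 125, 105].getD t 0
/-- length at `l` -/
def tW (t : ℕ) : ℕ := [0, 1000, 0, 0, 161, 79, 64, 61, 71, 104].getD t 0
/-- leg at `k` -/
def tA (t : ℕ) : ℕ := [0, 0, 0, 1, 0, 0, 0, 0, 1, 1].getD t 0
/-- leg at `l` -/
def tB (t : ℕ) : ℕ := [0, 0, 0, 0, 0, 1, 1, 2, 1, 2].getD t 0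

/-- the coordinate with a given role -/
def Ix.role (x : Ix) (r : ℕ) : Fin 4 := if r = 0 then x.i else if r = 1 then x.z else x.k

/-- the generators -/
def gen (x : Ix) : D := fun c =>
  if c = x.i then (x.i, tS x.t) else if c = x.k then (x.role (tA x.t), tU x.t)
  else if c = x.l then (x.role (tB x.t), tW x.t) else (x.i, if x.t = 1 then 1000 else 0)

/-- admissible indices -/
def Ix.Ok (x : Ix) : Prop :=
  x.t < 10 ∧ x.i ≠ x.z ∧ x.i ≠ x.k ∧ x.i ≠ x.l ∧ x.z ≠ x.k ∧ x.z ≠ x.l ∧ x.k ≠ x.l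

instance (x : Ix) : Decidable x.Ok := by unfold Ix.Ok; infer_instance

/-- sum in one coordinate -/
def cr (a b : ℕ) (l m : Fin 4) : Fin 4 × ℕ :=
  if l = m then (l, a + b) else if b ≤ a then (l, a - b) else (m, b - a)

/-- the crossing point -/
def cross (g h : D) (i : Fin 4) : D := fun c =>
  cr ((h i).2 * (g c).2) ((g i).2 * (h c).2) (g c).1 (h c).1

/-- no cancellation -/
def Conf (w : D) (x : Ix) : Prop := ∀ c, (gen x c).2 = 0 ∨ (gen x c).1 = (w c).1

instance (w : D) (x : Ix) : Decidable (Conf w x) := by unfold Conf; infer_instance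

/-- a certificate of membership -/
def Ver (w : D) (d : ℕ) (x y u : Ix) (a b e : ℕ) : Prop :=
  (∀ c, d * (w c).2 = a * (gen x c).2 + b * (gen y c).2 + e * (gen u c).2) ∧ 0 < d ∧
    x.Ok ∧ y.Ok ∧ u.Ok ∧ (a = 0 ∨ Conf w x) ∧ (b = 0 ∨ Conf w y) ∧ (e = 0 ∨ Conf w u)

instance (w : D) (d : ℕ) (x y u : Ix) (a b e : ℕ) : Decidable (Ver w d x y u a b e) := by
  unfold Ver; infer_instance

/-- membership -/
def Good (w : D) : Prop := ∃ d x y u a b e, Ver w d x y u a b e

/-- Cramer's rule in the coordinates `p`, `q`, the rest on the axis `u.i` -/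
def try3 (w : D) (p q : Fin 4) (u x y : Ix) : Bool :=
  let d := (gen x p).2 * (gen y q).2 - (gen x q).2 * (gen y p).2
  let a := (w p).2 * (gen y q).2 - (w q).2 * (gen y p).2
  let b := (gen x p).2 * (w q).2 - (gen x q).2 * (w p).2
  decide (Ver w d x y u a b (d * (w u.i).2 - a * (gen x u.i).2 - b * (gen y u.i).2))

theorem good_of_try {w : D} {p q : Fin 4} {u x y : Ix} (h : try3 w p q u x y = true) : Good w :=
  ⟨_, _, _, _, _, _, _, of_decide_eq_true h⟩

/-- generator with one negative coordinate `k` -/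
def sing (w : D) (i z k l : Fin 4) : Ix :=
  if (w k).1 = i then ⟨2, i, z, k, l⟩ else if (w k).1 = z then ⟨3, i, z, k, l⟩ else ⟨3, i, l, k, z⟩

/-- two negative coordinates -/
def two (w : D) (i z k l : Fin 4) : Bool :=
  let cs := ([4, 5, 6, 7, 8, 9].flatMap fun t => [⟨t, i, z, k, l⟩, ⟨t, i, z, l, k⟩]).filter
    fun x => decide (Conf w x)
  (sing w i z k l :: cs).any fun x => (sing w i z l k :: cs).any fun y =>
    try3 w k l ⟨0, i, z, k, l⟩ x y

/-- one negative coordinate -/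
def one (w : D) (k z i j : Fin 4) : Bool :=
  try3 w k i ⟨0, j, z, k, i⟩ (sing w i z k j) ⟨0, i, z, k, j⟩ ||
    try3 w k i ⟨0, j, z, k, i⟩ (sing w j z k i) (sing w i z k j)

/-- negative coordinate -/
def neg (w : D) (c : Fin 4) : Bool := (w c).2 != 0 && (w c).1 != c

/-- the search -/
def ok (w : D) (z : Fin 4) : Bool :=
  let p := z + 1
  let q := z + 2
  let r := z + 3
  bif neg w p then
    (bif neg w q then two w r z p q else bif neg w r then two w q z p r else one w p z q r)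
  else bif neg w q then (bif neg w r then two w p z q r else one w q z p r)
  else bif neg w r then one w r z p q
  else try3 w p q ⟨0, r, z, p, q⟩ ⟨0, p, z, q, r⟩ ⟨0, q, z, p, r⟩

theorem good_of_ok {w : D} {z : Fin 4} (h : ok w z = true) : Good w := by
  have h2 : ∀ i z k l, two w i z k l = true → Good w := fun i z k l h => by
    obtain ⟨x, -, h⟩ := List.any_eq_true.1 h
    obtain ⟨y, -, h⟩ := List.any_eq_true.1 h
    exact good_of_try h
  have h1 : ∀ i z k l, one w i z k l = true → Good w := fun i z k l h =>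
    (Bool.or_eq_true_iff.1 h).elim good_of_try good_of_try
  unfold ok at h
  simp only [cond_eq_ite] at h
  split_ifs at h
  all_goals first | exact h2 _ _ _ _ h | exact h1 _ _ _ _ h | exact good_of_try h

/-- tabulation -/
def tab (w : D) : D :=
  let a := w 0
  let b := w 1
  let c := w 2
  let d := w 3
  fun x => if x = 0 then a else if x = 1 then b else if x = 2 then c else d

theorem tab_eq (w : D) : tab w = w := by
  funext x
  fin_cases x <;> rfl

/-- the check for one template -/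
def Chk (t : ℕ) : Prop := ∀ s : Fin 10, ∀ i z k l : Fin 4, Ix.Ok ⟨s, i, z, k, l⟩ → ∀ c,
  (gen ⟨t, 0, 1, 2, 3⟩ c).2 = 0 ∨ (gen ⟨s, i, z, k, l⟩ c).2 = 0 ∨
    (gen ⟨t, 0, 1, 2, 3⟩ c).1 = (gen ⟨s, i, z, k, l⟩ c).1 ∨
    ok (tab (cross (gen ⟨t, 0, 1, 2, 3⟩) (gen ⟨s, i, z, k, l⟩) c)) c = true

instance (t : ℕ) : Decidable (Chk t) := by unfold Chk; infer_instance

theorem chk : ∀ t : Fin 10, Chk t := by decide +kernel

/-- `w'` is the image of `w` under the symmetry `τ` -/
def Rel (τ : Equiv.Perm (Fin 4)) (w w' : D) : Prop := ∀ c, w' (τ c) = (τ (w c).1, (w c).2)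

/-- action on indices -/
def Ix.map (τ : Equiv.Perm (Fin 4)) (x : Ix) : Ix := ⟨x.t, τ x.i, τ x.z, τ x.k, τ x.l⟩

variable {τ : Equiv.Perm (Fin 4)}

theorem Ix.Ok.map {x : Ix} (h : x.Ok) : (x.map τ).Ok := by
  simpa only [Ix.Ok, Ix.map, ne_eq, EmbeddingLike.apply_eq_iff_eq] using h

theorem rel_gen (τ : Equiv.Perm (Fin 4)) (x : Ix) : Rel τ (gen x) (gen (x.map τ)) := fun c => by
  have h : ∀ r, (x.map τ).role r = τ (x.role r) := fun r => by
    unfold Ix.role; split_ifs <;> rfl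
  simp only [gen, h]
  simp only [Ix.map, EmbeddingLike.apply_eq_iff_eq]
  split_ifs <;> rfl

theorem Rel.cross {g g' h h' : D} (a : Rel τ g g') (b : Rel τ h h') (i : Fin 4) :
    Rel τ (cross g h i) (cross g' h' (τ i)) := fun c => by
  simp only [A1.cross, a c, b c, a i, b i, cr, EmbeddingLike.apply_eq_iff_eq]
  split_ifs <;> rfl

theorem Rel.conf {w w' : D} (a : Rel τ w w') {x : Ix} (h : Conf w x) : Conf w' (x.map τ) :=
  fun c => by
    obtain ⟨c, rfl⟩ := τ.surjective c
    rw [a c, rel_gen τ x c]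
    exact (h c).imp id (congrArg τ)

theorem Rel.good {w w' : D} (a : Rel τ w w') (h : Good w) : Good w' := by
  obtain ⟨d, x, y, u, p, q, r, h1, h2, h3, h4, h5, h6, h7, h8⟩ := h
  refine ⟨d, x.map τ, y.map τ, u.map τ, p, q, r, fun c => ?_, h2, h3.map, h4.map, h5.map,
    h6.imp id a.conf, h7.imp id a.conf, h8.imp id a.conf⟩
  obtain ⟨c, rfl⟩ := τ.surjective c
  rw [a c, rel_gen τ x c, rel_gen τ y c, rel_gen τ u c]
  exact h1 c

theorem exists_perm : ∀ i z k l : Fin 4, Ix.Ok ⟨0, i, z, k, l⟩ →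
    ∃ τ : Equiv.Perm (Fin 4), τ 0 = i ∧ τ 1 = z ∧ τ 2 = k ∧ τ 3 = l := by
  decide +kernel

theorem good_cross {x y : Ix} (hx : x.Ok) (hy : y.Ok) (c : Fin 4) (h1 : (gen x c).2 ≠ 0)
    (h2 : (gen y c).2 ≠ 0) (h3 : (gen x c).1 ≠ (gen y c).1) : Good (cross (gen x) (gen y) c) := by
  obtain ⟨t, i, z, k, l⟩ := x
  obtain ⟨τ, rfl, rfl, rfl, rfl⟩ := exists_perm i z k l ⟨by norm_num, hx.2⟩
  obtain ⟨c, rfl⟩ := τ.surjective c
  have e : (y.map τ.symm).map τ = y := by simp [Ix.map]
  have a := rel_gen τ ⟨t, 0, 1, 2, 3⟩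
  have b := rel_gen τ (y.map τ.symm)
  rw [e] at b
  have a' : gen ⟨t, τ 0, τ 1, τ 2, τ 3⟩ (τ c) = _ := a c
  rw [a'] at h1 h3
  rw [b c] at h2 h3
  refine (a.cross b c).good ?_
  rcases chk ⟨t, hx.1⟩ ⟨y.t, hy.1⟩ _ _ _ _ (hy.map (τ := τ.symm)) c with h | h | h | h
  · exact absurd h h1
  · exact absurd h h2
  · exact absurd (congrArg τ h) h3
  · rw [tab_eq] at h
    exact good_of_ok h

end Pool.Agent.P.MP_8ecd01_al.A1
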