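import Pool.Agent.P.MP_8ecd01_al.A1.Hull
import Pool.Agent.P.MP_8ecd01_al.A1.RadData

/-! A closed convex set of type `A1^4` that is not completely reducible and has circumradius
larger than `π / 2`. -/

namespace Pool.Agent.P.MP_8ecd01_al.A1

variable {L : Type} (e : Fin 4 ↪ L)

/-- realization of an integer point -/
def real (w : D) : V 4 L := fun c => T.mk (e (w c).1) (w c).2 (Nat.cast_nonneg _)

theorem T.ext' {s t : T L} (h1 : s.leg = t.leg) (h2 : s.len = t.len) : s = t :=
  Prod.ext h1 (Subtype.ext h2)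

theorem real_cross (g h : D) (i : Fin 4) :
    add (smul (real e h i).len (real e g)) (smul (real e g i).len (real e h)) =
      real e (cross g h i) := by
  funext c
  have h1 : ∀ (a : ℕ) (w : D), smul a (real e w) c =
      T.mk (e (w c).1) ((a * (w c).2 : ℕ) : ℝ) (Nat.cast_nonneg _) := fun a w =>
    T.ext' rfl (by simp [smul, T.len_smul, real])
  have h2 : ∀ (a b : ℕ) (l m : Fin 4), T.add (T.mk (e l) a (Nat.cast_nonneg _))
      (T.mk (e m) b (Nat.cast_nonneg _)) =
      T.mk (e (cr a b l m).1) (cr a b l m).2 (Nat.cast_nonneg _) := fun a b l m => by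
    have ha : (0 : ℝ) ≤ a := Nat.cast_nonneg _
    have hb : (0 : ℝ) ≤ b := Nat.cast_nonneg _
    unfold cr T.add
    by_cases h3 : l = m
    · subst h3
      refine T.ext' (by simp) ?_
      simp [T.sg, abs_of_nonneg (add_nonneg ha hb)]
    have h4 : T.sg (e l) (T.mk (e m) b (Nat.cast_nonneg _)) = -b :=
      T.sg_of_ne fun h => h3 (e.injective h).symm
    simp only [T.leg_mk, T.len_mk, h4, if_neg h3]
    by_cases h5 : b ≤ a
    · have h6 : (b : ℝ) ≤ a := Nat.cast_le.2 h5
      refine T.ext' (by simp [h5]) ?_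
      simp only [if_pos h5, T.len_mk, Nat.cast_sub h5]
      rw [abs_of_nonneg (by linarith)]; ring
    · have h7 := (not_le.1 h5).le
      have h6 : (a : ℝ) < b := Nat.cast_lt.2 (not_le.1 h5)
      refine T.ext' (by simp [h5]) ?_
      simp only [if_neg h5, T.len_mk, Nat.cast_sub h7]
      rw [abs_of_nonpos (by linarith)]; ring
  exact (congrArg₂ T.add (h1 _ g) (h1 _ h)).trans (h2 _ _ _ _)

/-- the index of a tuple -/
def ix (j : Fin 10 × Fin 4 × Fin 4 × Fin 4 × Fin 4) : Ix :=
  ⟨j.1, j.2.1, j.2.2.1, j.2.2.2.1, j.2.2.2.2⟩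

/-- the finite index set -/
abbrev Io := {j // (ix j).Ok}

/-- the generators in the vector building -/
def G (j : Io) : V 4 L := real e (gen (ix j.1))

theorem exists_io {x : Ix} (h : x.Ok) : ∃ j : Io, ix j.1 = x :=
  ⟨⟨(⟨x.t, h.1⟩, x.i, x.z, x.k, x.l), h⟩, rfl⟩

theorem Good.mem {w : D} (h : Good w) : real e w ∈ Hull (G e) := by
  classical
  obtain ⟨d, x, y, u, p, q, r, h1, h2, h3, h4, h5, h6, h7, h8⟩ := h
  obtain ⟨x, rfl⟩ := exists_io h3
  obtain ⟨y, rfl⟩ := exists_io h4
  obtain ⟨u, rfl⟩ := exists_io h5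
  have hd : (0 : ℝ) < d := Nat.cast_pos.2 h2
  have hc : ∀ j, Conf w (ix j.1) → ∀ i, 0 < (G e j i).len → (real e w i).leg = (G e j i).leg :=
    fun j hj i hi => (hj i).elim (fun h => by simp [G, real, h] at hi)
      fun h => congrArg e h.symm
  refine ⟨fun j => ((if j = x then (p : ℝ) else 0) + (if j = y then (q : ℝ) else 0) +
    (if j = u then (r : ℝ) else 0)) / d, fun j => by positivity, fun j hj => hc j ?_, fun i => ?_⟩
  · by_contra hn
    have k : ∀ (v : Io) (a : ℕ), a = 0 ∨ Conf w (ix v.1) → (if j = v then (a : ℝ) else 0) = 0 :=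
      fun v a h => by
        split_ifs with h9
        · exact Nat.cast_eq_zero.2 (h.resolve_right (h9 ▸ hn))
        · rfl
    simp [k x p h6, k y q h7, k u r h8] at hj
  · simp only [div_mul_eq_mul_div, ← Finset.sum_div, add_mul, Finset.sum_add_distrib, ite_mul,
      zero_mul, Finset.sum_ite_eq', Finset.mem_univ, if_true]
    rw [eq_div_iff hd.ne', mul_comm]
    simp only [G, real, T.len_mk]
    exact_mod_cast h1 i

theorem G_self (j : Io) : (G e j (ix j.1).i).leg = e (ix j.1).i ∧ 0 < (G e j (ix j.1).i).len := by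
  have h : ∀ t : Fin 10, 0 < tS t := by decide
  simp only [G, real, gen, if_true, T.leg_mk, T.len_mk, true_and, Nat.cast_pos]
  exact h j.1.1

theorem isCone_G : IsCone (Hull (G e)) := by
  have : Nontrivial L := e.injective.nontrivial
  have : Nonempty Io := ⟨⟨(0, 0, 1, 2, 3), by decide⟩⟩
  refine isCone_hull (fun j => ⟨_, (G_self e j).2⟩) fun j k i h1 h2 h3 => ?_
  unfold G
  rw [real_cross]
  exact (good_cross j.2 k.2 i (fun h => by simp [G, real, h] at h1)
    (fun h => by simp [G, real, h] at h2) fun h => h3 (congrArg e h)).mem e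

theorem toD_mem [Nontrivial L] {n : ℕ} {C : Set (V n L)} (hC : IsCone C) {x : V n L} (hx : x ∈ C)
    (h : nsq x = 1) : toD x h ∈ sphOf C :=
  mem_of_dsq hC.closed hx (dsq_of_enc (enc_rep (toD x h)).symm)

theorem sum_sg (i : Fin 4) (l : L) :
    T.sg l (real e (gen ⟨1, 0, 1, 2, 3⟩) i) + T.sg l (real e (gen ⟨1, 1, 0, 2, 3⟩) i) +
      T.sg l (real e (gen ⟨1, 2, 0, 1, 3⟩) i) + T.sg l (real e (gen ⟨1, 3, 0, 1, 2⟩) i) ≤ -1 := by
  have h : ∀ a b : Fin 4, a ≠ b → e a = l → e b ≠ l := fun a b h h1 h2 =>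
    h (e.injective (h1.trans h2.symm))
  have h01 := h 0 1 (by decide)
  have h02 := h 0 2 (by decide)
  have h03 := h 0 3 (by decide)
  have h12 := h 1 2 (by decide)
  have h13 := h 1 3 (by decide)
  have h23 := h 2 3 (by decide)
  fin_cases i <;> simp [real, gen, T.sg, tS, tU, tW, tA, tB, Ix.role] <;> split_ifs <;>
    first | tauto | norm_num

include e in
theorem radius : ∃ S : Set (Delta 4 L), IsClosed S ∧ IsConvex S ∧
    (∃ x ∈ S, ∀ y ∈ S, ¬ Opp x y) ∧
    ∃ r : ℝ, Real.pi / 2 < r ∧ ∀ c : Delta 4 L, ∃ y ∈ S, r ≤ dist c y := by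
  have : Nontrivial L := e.injective.nontrivial
  have hC := isCone_G e
  refine ⟨sphOf (Hull (G e)), sphOf_closed hC, sphOf_convex hC,
    ⟨toD _ (nsq_axis 0 (e 0)), toD_mem hC ?_ _, fun y ⟨c, hc⟩ ho => ?_⟩,
    Real.arccos (-(1 / 16000)), ?_, fun c => ?_⟩
  · have : axis 0 (e 0) = G e ⟨(0, 0, 1, 2, 3), by decide⟩ := by
      funext i
      fin_cases i <;> exact T.ext' rfl (by simp [axis, G, real, gen, ix, tS, tU, tW])
    exact this ▸ mem_hull_self _
  · rw [opp_iff, ip_congr (enc_rep _) rfl, ip_axis] at ho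
    have h1 : (rep y 0).len ^ 2 = 1 := by rw [← T.sg_sq (e 0), ho]; norm_num
    have h2 := nsq_rep y
    simp only [nsq, Fin.sum_univ_four] at h2
    have h3 : ∀ i, i ≠ 0 → (rep y i).len = 0 := fun i hi => by
      have a1 := sq_nonneg (rep y 1).len
      have a2 := sq_nonneg (rep y 2).len
      have a3 := sq_nonneg (rep y 3).len
      refine pow_eq_zero_iff two_ne_zero |>.1 ?_
      fin_cases i
      · exact absurd rfl hi
      all_goals simp only [Fin.mk_one, Fin.reduceFinMk]; linarith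
    have h4 : 0 ≤ T.sg (e 0) (rep y 0) := by
      rw [hc.sg]
      refine Finset.sum_nonneg fun j _ => ?_
      rcases (hc.1 j).eq_or_lt with h5 | h5
      · simp [← h5]
      have h6 : (ix j.1).i = 0 := by_contra fun h6 => by
        have := hc.le j (ix j.1).i
        rw [h3 _ h6] at this
        exact absurd (mul_pos h5 (G_self e j).2) (not_lt.2 this)
      have h7 := (G_self e j).1
      rw [h6] at h7
      rw [T.sg_of_eq h7]
      exact mul_nonneg h5.le (T.len_nonneg _)
    linarith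
  · rw [Real.arccos_neg]
    have := Real.arccos_lt_pi_div_two.2 (show (0 : ℝ) < 1 / 16000 by norm_num)
    linarith
  · have h1 : ∃ x : Ix, x.Ok ∧ x.t = 1 ∧ ip (rep c) (real e (gen x)) ≤ -(1 / 4) := by
      by_contra h
      push Not at h
      have a0 := h ⟨1, 0, 1, 2, 3⟩ (by decide) rfl
      have a1 := h ⟨1, 1, 0, 2, 3⟩ (by decide) rfl
      have a2 := h ⟨1, 2, 0, 1, 3⟩ (by decide) rfl
      have a3 := h ⟨1, 3, 0, 1, 2⟩ (by decide) rfl
      have b : ∀ i, (rep c i).len ^ 2 ≤ (rep c i).len := fun i => by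
        have := len_sq_le (rep c) i
        rw [nsq_rep] at this
        nlinarith [(rep c i).len_nonneg]
      have b' := fun i => mul_le_mul_of_nonneg_left (sum_sg e i (rep c i).leg)
        (rep c i).len_nonneg
      have h2 := nsq_rep c
      simp only [nsq, ip, T.ip, Fin.sum_univ_four, mul_add] at h2 a0 a1 a2 a3 b'
      linarith [b 0, b 1, b 2, b 3, b' 0, b' 1, b' 2, b' 3]
    obtain ⟨x, hx, ht, h2⟩ := h1
    have h3 : ∀ i z k l : Fin 4, Ix.Ok ⟨1, i, z, k, l⟩ →
        ∑ a, (gen ⟨1, i, z, k, l⟩ a).2 ^ 2 = 11994001 := by decide +kernel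
    have h4 : nsq (real e (gen x)) = 11994001 := by
      obtain ⟨t, i, z, k, l⟩ := x
      obtain rfl : t = 1 := ht
      simp only [nsq, real, T.len_mk]
      exact_mod_cast h3 i z k l hx
    obtain ⟨j, rfl⟩ := exists_io hx
    set s := √(11994001 : ℝ) with hs
    have s1 : s ^ 2 = 11994001 := Real.sq_sqrt (by norm_num)
    have s0 : 0 < s := Real.sqrt_pos.2 (by norm_num)
    have s2 : s ≤ 4000 := by nlinarith
    have s3 : 0 ≤ s⁻¹ := inv_nonneg.2 s0.le
    have h5 : nsq (smul s⁻¹ (real e (gen (ix j.1)))) = 1 := by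
      rw [nsq_smul s3, h4, ← s1]; field_simp
    refine ⟨toD _ h5, toD_mem hC (hC.smul _ s3 _ (mem_hull_self j)) _, ?_⟩
    rw [dist_eq, ip_congr rfl (enc_rep (toD _ h5)), ip_smul s3]
    refine Real.arccos_le_arccos ?_
    have s4 : (4000 : ℝ)⁻¹ ≤ s⁻¹ := inv_anti₀ s0 s2
    nlinarith

end Pool.Agent.P.MP_8ecd01_al.A1
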