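import Pool.Agent.P.MP_8ecd01_al.A1.Defs
import Pool.Agent.P.MP_8ecd01_al.A1.Centre

/-! Dictionary between the spherical building and the vector building. -/

namespace Pool.Agent.P.MP_8ecd01_al.A1

open Filter Topology

variable {n : ℕ} {L : Type} {p q : Fin n → L} {v w : Fin n → ℝ} {x y : V n L}

open Classical in
/-- the weights of a point of the vector building -/
noncomputable def enc (x : V n L) : Fin n → L → ℝ :=
  fun i l => if l = (x i).leg then (x i).len else 0

theorem enc_self (x : V n L) (i : Fin n) : enc x i (x i).leg = (x i).len := by simp [enc]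

theorem leg_of_enc {i : Fin n} {l : L} (h : enc x i l ≠ 0) : l = (x i).leg := by
  by_contra h1
  simp [enc, h1] at h

theorem sg_of_enc (h : enc x = enc y) (i : Fin n) (l : L) : T.sg l (x i) = T.sg l (y i) := by
  have key : ∀ {x y : V n L}, enc x = enc y → (x i).len ≠ 0 → T.sg l (x i) = T.sg l (y i) := by
    intro x y h h0
    have a1 := enc_self x i
    rw [h] at a1
    have a2 := leg_of_enc (a1 ▸ h0)
    rw [a2, enc_self] at a1
    unfold T.sg
    rw [a1, a2]
  by_cases h1 : (x i).len = 0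
  · by_cases h2 : (y i).len = 0
    · rw [T.sg_zero _ h1, T.sg_zero _ h2]
    · exact (key h.symm h2).symm
  · exact key h h1

theorem enc_of_sg (h : ∀ i l, T.sg l (x i) = T.sg l (y i)) : enc x = enc y := by
  have key : ∀ (x : V n L) i l, enc x i l = (T.sg l (x i) + (x i).len) / 2 := fun x i l => by
    by_cases h : (x i).leg = l
    · rw [T.sg_of_eq h, ← h, enc_self]; ring
    · rw [T.sg_of_ne h]; simp [enc, Ne.symm h]
  funext i l
  rw [key, key, h, T.len_of_sg (h i)]

theorem enc_of_dsq (h : dsq x y ≤ 0) : enc x = enc y := enc_of_sg fun i l => by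
  have := T.abs_sg_sub l (x i) (y i)
  rw [d_eq_zero h i] at this
  exact sub_eq_zero.1 (abs_nonpos_iff.1 this)

theorem len_of_enc (h : enc x = enc y) (i : Fin n) : (x i).len = (y i).len :=
  T.len_of_sg (sg_of_enc h i)

theorem ip_congr {x' y' : V n L} (h : enc x = enc x') (h' : enc y = enc y') :
    ip x y = ip x' y' :=
  Finset.sum_congr rfl fun i _ => by
    rw [T.ip, sg_of_enc h', ← T.ip, T.ip_comm, T.ip, sg_of_enc h, ← T.ip, T.ip_comm]

theorem dsq_of_enc (h : enc x = enc y) : dsq x y ≤ 0 := by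
  rw [dsq_eq, ← ip_self, ← ip_self, ip_congr h h, ip_congr h rfl]; linarith

theorem enc_smul {t : ℝ} (ht : 0 ≤ t) (x : V n L) : enc (smul t x) = t • enc x := by
  funext i l
  simp only [enc, smul, T.leg_smul, T.len_smul ht, Pi.smul_apply, smul_eq_mul]
  split_ifs <;> simp

theorem enc_zero (h : nsq x = 0) : enc x = 0 := by
  funext i l
  simp [enc, nsq_eq_zero.1 h i]

theorem enc_eq_pt (h : Apt p q) (hx : ∀ i, 0 < (x i).len → (x i).leg = p i ∨ (x i).leg = q i) :
    enc x = pt p q fun i => T.sg (p i) (x i) := by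
  funext i l
  have h0 := (x i).len_nonneg
  rcases h0.eq_or_lt with h1 | h1
  · simp [enc, pt, ← h1, T.sg_zero _ h1.symm]
  · rcases hx i h1 with h2 | h2
    · simp only [enc, pt, T.sg_of_eq h2]
      rw [h2, max_eq_left h0, max_eq_right (neg_nonpos.2 h0)]
      split_ifs <;> rfl
    · have h3 : (x i).leg ≠ p i := h2 ▸ (h i).symm
      simp only [enc, pt, T.sg_of_ne h3]
      rw [h2, neg_neg, max_eq_left h0, max_eq_right (neg_nonpos.2 h0)]
      split_ifs with a b
      · exact absurd (b.symm.trans a) (h i)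
      all_goals rfl

open Classical in
/-- the point with coordinates `v` in an apartment -/
noncomputable def ofApt (p q : Fin n → L) (v : Fin n → ℝ) : V n L :=
  fun i => T.mk (if 0 ≤ v i then p i else q i) |v i| (abs_nonneg _)

theorem ofApt_leg (p q : Fin n → L) (v : Fin n → ℝ) (i : Fin n) :
    (ofApt p q v i).leg = p i ∨ (ofApt p q v i).leg = q i := by
  simp only [ofApt, T.leg_mk]
  split_ifs <;> simp

theorem sg_ofApt (h : Apt p q) (v : Fin n → ℝ) (i : Fin n) : T.sg (p i) (ofApt p q v i) = v i := by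
  by_cases h1 : 0 ≤ v i
  · rw [T.sg_of_eq (by simp [ofApt, h1])]; exact abs_of_nonneg h1
  · rw [T.sg_of_ne (by simpa [ofApt, h1] using (h i).symm)]
    simp [ofApt, abs_of_neg (not_le.1 h1)]

theorem enc_ofApt (h : Apt p q) (v : Fin n → ℝ) : enc (ofApt p q v) = pt p q v := by
  rw [enc_eq_pt h fun i _ => ofApt_leg p q v i]
  simp only [sg_ofApt h]

theorem sg_of_pt (h : Apt p q) (hx : enc x = pt p q v) (i : Fin n) : T.sg (p i) (x i) = v i := by
  rw [sg_of_enc (hx.trans (enc_ofApt h v).symm), sg_ofApt h]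

theorem leg_of_pt (hx : enc x = pt p q v) (i : Fin n) (h0 : 0 < (x i).len) :
    (x i).leg = p i ∨ (x i).leg = q i := by
  have := enc_self x i
  rw [hx] at this
  by_contra h1
  rw [not_or] at h1
  simp only [pt, h1.1, h1.2, if_false] at this
  exact h0.ne this

theorem ip_of_pt (h : Apt p q) (hx : enc x = pt p q v) (hy : enc y = pt p q w) :
    ip x y = ∑ i, v i * w i :=
  Finset.sum_congr rfl fun i _ => by
    rw [← sg_of_pt h hx, ← sg_of_pt h hy, T.ip]
    rcases (x i).len_nonneg.eq_or_lt with h0 | h0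
    · rw [T.sg_zero _ h0.symm, ← h0]; ring
    · rcases leg_of_pt hx i h0 with h1 | h1
      · rw [T.sg_of_eq h1, h1]
      · have := sg_flat (h i) (leg_of_pt hy i)
        rw [T.sg_of_ne (s := x i) (h1 ▸ (h i).symm), h1, show T.sg (q i) (y i) = -T.sg (p i) (y i) by linarith]
        ring

theorem nsq_of_pt (h : Apt p q) (hx : enc x = pt p q v) : nsq x = ∑ i, v i ^ 2 := by
  rw [← ip_self, ip_of_pt h hx hx]; simp only [sq]

theorem enc_add (h : Apt p q) (hx : enc x = pt p q v) (hy : enc y = pt p q w) :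
    enc (add x y) = pt p q (v + w) := by
  have hl : ∀ i, 0 < (add x y i).len → (add x y i).leg = p i ∨ (add x y i).leg = q i := by
    intro i hi
    by_contra h1
    have a1 := T.sg_add (add x y i).leg (x i) (y i)
    have a2 : ∀ s : T L, (0 < s.len → s.leg = p i ∨ s.leg = q i) → s.leg = (add x y i).leg →
        s.len = 0 := fun s hs e => by
      by_contra h0
      exact h1 (e ▸ hs (lt_of_le_of_ne s.len_nonneg (Ne.symm h0)))
    rcases T.leg_add (x i) (y i) with e | e
    · have b := a2 _ (leg_of_pt hx i) e.symm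
      have c := T.zero_add_sg (add x y i).leg (y i) b
      have d : T.sg (add x y i).leg (add x y i) = T.sg (add x y i).leg (y i) := c
      rw [T.sg_self] at d
      have f := T.leg_eq_of_sg_pos (d ▸ hi)
      have := a2 _ (leg_of_pt hy i) f
      rw [T.sg_zero _ this] at d
      exact hi.ne' d
    · have b := a2 _ (leg_of_pt hy i) e.symm
      have d : T.sg (add x y i).leg (add x y i) = T.sg (add x y i).leg (x i) :=
        T.sg_add_zero _ _ b
      rw [T.sg_self] at d
      have f := T.leg_eq_of_sg_pos (d ▸ hi)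
      have := a2 _ (leg_of_pt hx i) f
      rw [T.sg_zero _ this] at d
      exact hi.ne' d
  rw [enc_eq_pt h hl]
  congr 1
  funext i
  have a1 := T.sg_add (p i) (x i) (y i)
  have a2 := T.sg_add (q i) (x i) (y i)
  have a3 := sg_flat (h i) (hl i)
  have a4 := sg_flat (h i) (leg_of_pt hx i)
  have a5 := sg_flat (h i) (leg_of_pt hy i)
  have a6 := sg_of_pt h hx i
  have a7 := sg_of_pt h hy i
  simp only [add, Pi.add_apply] at a3 ⊢
  linarith

theorem pt_smul {t : ℝ} (ht : 0 ≤ t) (p q : Fin n → L) (v : Fin n → ℝ) :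
    pt p q (t • v) = t • pt p q v := by
  funext i l
  simp only [pt, Pi.smul_apply, smul_eq_mul]
  split_ifs
  · rw [mul_max_of_nonneg _ _ ht, mul_zero]
  · rw [mul_max_of_nonneg _ _ ht, mul_zero, mul_neg]
  · simp

theorem exists_apt [Nontrivial L] (x y : V n L) :
    ∃ p q v w, Apt p q ∧ enc x = pt p q v ∧ enc y = pt p q w := by
  have : ∀ i, ∃ l, (x i).leg ≠ l ∧ ((y i).leg = (x i).leg ∨ (y i).leg = l) := fun i => by
    by_cases h : (y i).leg = (x i).leg
    · obtain ⟨l, hl⟩ := exists_ne (x i).leg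
      exact ⟨l, hl.symm, Or.inl h⟩
    · exact ⟨_, Ne.symm h, Or.inr rfl⟩
  choose q h1 h2 using this
  exact ⟨fun i => (x i).leg, q, _, _, h1, enc_eq_pt h1 fun i _ => Or.inl rfl,
    enc_eq_pt h1 fun i _ => h2 i⟩

theorem Delta.nontrivial (a : Delta n L) : Nontrivial L := by
  obtain ⟨_, p, q, v, h, hv, -⟩ := a
  rcases isEmpty_or_nonempty (Fin n) with h0 | ⟨⟨i⟩⟩
  · simp at hv
  · exact ⟨_, _, h i⟩

theorem exists_rep (a : Delta n L) : ∃ x : V n L, enc x = a.1 ∧ nsq x = 1 := by
  obtain ⟨_, p, q, v, h, hv, rfl⟩ := a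
  exact ⟨_, enc_ofApt h v, (nsq_of_pt h (enc_ofApt h v)).trans hv⟩

/-- a representative in the vector building -/
noncomputable def rep (a : Delta n L) : V n L := (exists_rep a).choose

theorem enc_rep (a : Delta n L) : enc (rep a) = a.1 := (exists_rep a).choose_spec.1
theorem nsq_rep (a : Delta n L) : nsq (rep a) = 1 := (exists_rep a).choose_spec.2

/-- the point of the sphere given by a unit vector -/
noncomputable def toD [Nontrivial L] (x : V n L) (h : nsq x = 1) : Delta n L :=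
  ⟨enc x, let ⟨p, q, v, _, h1, h2, _⟩ := exists_apt x x
    ⟨p, q, v, h1, (nsq_of_pt h1 h2).symm.trans h, h2⟩⟩

theorem dist_eq (a b : Delta n L) : dist a b = Real.arccos (ip (rep a) (rep b)) := by
  have := a.nontrivial
  have : {θ | ∃ p q v w, Apt p q ∧ a.1 = pt p q v ∧ b.1 = pt p q w ∧
      θ = Real.arccos (∑ i, v i * w i)} = {Real.arccos (ip (rep a) (rep b))} := by
    ext θ
    constructor
    · rintro ⟨p, q, v, w, h, h1, h2, rfl⟩
      rw [ip_of_pt h ((enc_rep a).trans h1) ((enc_rep b).trans h2)]; rfl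
    · rintro rfl
      obtain ⟨p, q, v, w, h, h1, h2⟩ := exists_apt (rep a) (rep b)
      exact ⟨p, q, v, w, h, (enc_rep a).symm.trans h1, (enc_rep b).symm.trans h2,
        by rw [ip_of_pt h h1 h2]⟩
  rw [dist, this, csInf_singleton]

theorem neg_of_ip (hv : ∑ i, v i ^ 2 = 1) (hw : ∑ i, w i ^ 2 = 1) (h : ∑ i, v i * w i ≤ -1) :
    w = -v := by
  have e : ∑ i, (v i + w i) ^ 2 = ∑ i, v i ^ 2 + ∑ i, w i ^ 2 + 2 * ∑ i, v i * w i := by
    rw [Finset.mul_sum, ← Finset.sum_add_distrib, ← Finset.sum_add_distrib]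
    exact Finset.sum_congr rfl fun i _ => by ring
  have e1 : ∑ i, (v i + w i) ^ 2 = 0 :=
    le_antisymm (by linarith) (Finset.sum_nonneg fun _ _ => sq_nonneg _)
  funext i
  have := (Finset.sum_eq_zero_iff_of_nonneg fun _ _ => sq_nonneg _).1 e1 i (Finset.mem_univ i)
  have := pow_eq_zero_iff two_ne_zero |>.1 this
  simp only [Pi.neg_apply]; linarith

theorem opp_iff (a b : Delta n L) : Opp a b ↔ ip (rep a) (rep b) = -1 := by
  have := a.nontrivial
  constructor
  · rintro ⟨p, q, v, h, h1, h2⟩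
    rw [ip_of_pt h ((enc_rep a).trans h1) ((enc_rep b).trans h2), ← nsq_rep a,
      nsq_of_pt h ((enc_rep a).trans h1), ← Finset.sum_neg_distrib]
    exact Finset.sum_congr rfl fun i _ => by simp [sq]
  · intro h0
    obtain ⟨p, q, v, w, h, h1, h2⟩ := exists_apt (rep a) (rep b)
    have := neg_of_ip ((nsq_of_pt h h1).symm.trans (nsq_rep a))
      ((nsq_of_pt h h2).symm.trans (nsq_rep b)) (by rw [← ip_of_pt h h1 h2, h0])
    exact ⟨p, q, v, h, (enc_rep a).symm.trans h1, this ▸ (enc_rep b).symm.trans h2⟩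

theorem cos_dist (a b : Delta n L) : Real.cos (dist a b) = ip (rep a) (rep b) := by
  have h1 := dsq_nonneg (rep a) (rep b)
  have h2 := nsq_nonneg (add (rep a) (rep b))
  rw [dsq_eq, nsq_rep, nsq_rep] at h1
  rw [nsq_add, nsq_rep, nsq_rep] at h2
  rw [dist_eq, Real.cos_arccos (by linarith) (by linarith)]

theorem enc_of_scale {t : ℝ} (ht : 0 ≤ t) {a : Delta n L} (h : enc x = t • a.1) :
    enc x = enc (smul t (rep a)) := by rw [enc_smul ht, enc_rep, h]

theorem ip_of_scale {t s : ℝ} (ht : 0 ≤ t) (hs : 0 ≤ s) {a b : Delta n L} (h : enc x = t • a.1)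
    (h' : enc y = s • b.1) : ip x y = t * s * ip (rep a) (rep b) := by
  rw [ip_congr (enc_of_scale ht h) (enc_of_scale hs h'), smul_ip ht, ip_smul hs, mul_assoc]

theorem nsq_of_scale {t : ℝ} (ht : 0 ≤ t) {a : Delta n L} (h : enc x = t • a.1) :
    nsq x = t ^ 2 := by
  rw [← ip_self, ip_of_scale ht ht h h, ip_self, nsq_rep]; ring

/-- the cone over a subset of the spherical building -/
def coneOf (S : Set (Delta n L)) : Set (V n L) :=
  {x | ∃ t : ℝ, 0 ≤ t ∧ ∃ a ∈ S, enc x = t • a.1}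

theorem isCone_coneOf {S : Set (Delta n L)} (hne : S.Nonempty) (h1 : IsClosed S)
    (h2 : IsConvex S) : IsCone (coneOf S) := by
  obtain ⟨a0, ha0⟩ := hne
  have := a0.nontrivial
  have hz : ∀ x : V n L, nsq x = 0 → x ∈ coneOf S := fun x hx =>
    ⟨0, le_rfl, a0, ha0, by rw [enc_zero hx, zero_smul]⟩
  refine ⟨?_, ⟨rep a0, 1, zero_le_one, a0, ha0, by rw [enc_rep, one_smul]⟩, ?_, ?_⟩
  · refine isClosed_of_closure_subset fun x hx => ?_
    by_cases h0 : nsq x = 0
    · exact hz x h0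
    obtain ⟨r0, hu⟩ := exists_unit h0
    have hz1 : enc x = √(nsq x) • (toD _ hu).1 := by
      show enc x = √(nsq x) • enc _
      rw [enc_smul (by positivity), smul_smul, mul_inv_cancel₀ r0.ne', one_smul]
    refine ⟨_, r0.le, toD _ hu, h1 _ fun ε hε => ?_, hz1⟩
    have hc : ContinuousAt (fun y => Real.arccos (ip x y / (√(nsq x) * √(nsq y)))) x :=
      Real.continuous_arccos.continuousAt.comp ((continuous_ip x).continuousAt.div
        (continuousAt_const.mul continuous_nsq.sqrt.continuousAt) (by positivity))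
    have e1 : ∀ᶠ y in 𝓝 x, Real.arccos (ip x y / (√(nsq x) * √(nsq y))) < ε :=
      hc.eventually_lt continuousAt_const (by
        rw [ip_self, Real.mul_self_sqrt (nsq_nonneg x), div_self h0, Real.arccos_one]; exact hε)
    have e2 : ∀ᶠ y in 𝓝 x, nsq y ≠ 0 := continuous_nsq.continuousAt.eventually_ne h0
    obtain ⟨y, ⟨y1, y2⟩, t, ht, a, ha, hy⟩ := mem_closure_iff_nhds.1 hx _ (e1.and e2)
    refine ⟨a, ha, ?_⟩
    have e3 := nsq_of_scale ht hy
    have ht0 : t ≠ 0 := by rintro rfl; exact y2 (by simpa using e3)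
    rw [ip_of_scale r0.le ht hz1 hy, e3, Real.sqrt_sq ht,
      mul_div_cancel_left₀ _ (mul_ne_zero r0.ne' ht0)] at y1
    rwa [dist_eq]
  · rintro s hs x ⟨t, ht, a, ha, hx⟩
    exact ⟨s * t, mul_nonneg hs ht, a, ha, by rw [enc_smul hs, hx, smul_smul]⟩
  · rintro x ⟨t, ht, a, ha, hx⟩ y ⟨s, hs, b, hb, hy⟩
    obtain ⟨p, q, v, w, h, e1, e2⟩ := exists_apt (rep a) (rep b)
    have f1 : a.1 = pt p q v := (enc_rep a).symm.trans e1
    have f2 : b.1 = pt p q w := (enc_rep b).symm.trans e2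
    have e3 : enc (add x y) = pt p q (t • v + s • w) :=
      enc_add h (by rw [hx, f1, pt_smul ht]) (by rw [hy, f2, pt_smul hs])
    by_cases ho : Opp a b
    · have e4 := neg_of_ip ((nsq_of_pt h e1).symm.trans (nsq_rep a))
        ((nsq_of_pt h e2).symm.trans (nsq_rep b))
        (by rw [← ip_of_pt h e1 e2, (opp_iff a b).1 ho])
      rcases le_total s t with h3 | h3
      · refine ⟨t - s, by linarith, a, ha, ?_⟩
        rw [e3, f1, ← pt_smul (by linarith), e4, sub_smul, smul_neg, sub_eq_add_neg]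
      · refine ⟨s - t, by linarith, b, hb, ?_⟩
        rw [e3, f2, ← pt_smul (by linarith), e4, sub_smul, smul_neg, smul_neg, sub_neg_eq_add,
          add_comm]
    · by_cases h0 : nsq (add x y) = 0
      · exact hz _ h0
      obtain ⟨r0, hu⟩ := exists_unit h0
      have r1 : 0 ≤ (√(nsq (add x y)))⁻¹ := by positivity
      refine ⟨_, r0.le, toD _ hu, h2 p q v w ((√(nsq (add x y)))⁻¹ * t)
        ((√(nsq (add x y)))⁻¹ * s) a b _ h f1 f2 ?_ (mul_nonneg r1 ht) (mul_nonneg r1 hs)
        ha hb ho, ?_⟩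
      · show enc _ = _
        rw [enc_smul r1, e3, ← pt_smul r1, smul_add, smul_smul, smul_smul]
      · show _ = √(nsq (add x y)) • enc _
        rw [enc_smul r1, smul_smul, mul_inv_cancel₀ r0.ne', one_smul]

open Classical in
/-- a vertex in the vector building -/
noncomputable def axis (i : Fin n) (l : L) : V n L :=
  fun j => T.mk l (if j = i then 1 else 0) (by split_ifs <;> simp)

theorem ip_axis (i : Fin n) (l : L) (x : V n L) : ip (axis i l) x = T.sg l (x i) := by
  simp [ip, T.ip, axis]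

theorem nsq_axis (i : Fin n) (l : L) : nsq (axis i l) = 1 := by
  simp [nsq, axis]

theorem mem_simplex_axis [Nontrivial L] {J : Set (Fin n)} {j : Fin n} (hj : j ∈ J)
    (q : Fin n → L) : toD _ (nsq_axis j (q j)) ∈ simplex J q := fun i l h => by
  have h1 : enc (axis j (q j)) i l ≠ 0 := h
  have h2 := leg_of_enc h1
  by_cases hi : i = j
  · exact ⟨hi ▸ hj, hi ▸ h2⟩
  · simp [enc, axis, hi] at h1

theorem simplex_single [Nontrivial L] (i : Fin n) (l : L) {a : Delta n L}
    (h : a ∈ simplex {i} fun _ => l) : a = toD _ (nsq_axis i l) := by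
  have h1 : ∀ j, j ≠ i → (rep a j).len = 0 := fun j hj => by
    by_contra h0
    exact hj (h j (rep a j).leg (by rwa [← enc_rep, enc_self])).1
  have h2 : (rep a i).len ^ 2 = 1 := by
    rw [← nsq_rep a, nsq, Finset.sum_eq_single i (fun j _ hj => by simp [h1 j hj]) (by simp)]
  have h3 : (rep a i).len = 1 := by nlinarith [(rep a i).len_nonneg]
  have h4 : (rep a i).leg = l := (h i _ (by rw [← enc_rep, enc_self, h3]; simp)).2
  refine Subtype.ext ((enc_rep a).symm.trans (enc_of_dsq ?_))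
  rw [dsq_eq, nsq_rep, nsq_axis, ip_comm, ip_axis, T.sg_of_eq h4, h3]
  norm_num

theorem IsAut.perm [Nontrivial L] {β : Equiv.Perm (Delta n L)} (hβ : IsAut β) :
    ∃ σ : Equiv.Perm (Fin n), ∀ a i, (rep (β a) (σ i)).len = (rep a i).len := by
  obtain ⟨l⟩ : Nonempty L := inferInstance
  have hip : ∀ a b, ip (rep (β a)) (rep (β b)) = ip (rep a) (rep b) := fun a b => by
    rw [← cos_dist, ← cos_dist, hβ.1]
  have hax : ∀ (i : Fin n) (l : L) (a : Delta n L),
      |ip (rep (toD _ (nsq_axis i l))) (rep a)| = (rep a i).len := fun i l a => by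
    rw [ip_congr (x' := axis i l) (enc_rep _) rfl, ip_axis, T.abs_sg]
  have : ∀ i, ∃ j, ∀ a, (rep (β a) j).len = (rep a i).len := fun i => by
    obtain ⟨J, q, h⟩ := hβ.2.1 {i} fun _ => l
    have h1 : β (toD _ (nsq_axis i l)) ∈ simplex J q :=
      h ▸ Set.mem_image_of_mem _ (mem_simplex_axis (J := {i}) rfl fun _ => l)
    obtain ⟨j, hj⟩ : ∃ j, (rep (β (toD _ (nsq_axis i l))) j).len ≠ 0 := by
      by_contra h0
      have := nsq_eq_zero.2 fun j => not_not.1 (not_exists.1 h0 j)
      rw [nsq_rep] at this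
      exact one_ne_zero this
    have hJ := (h1 j _ (by rwa [← enc_rep, enc_self])).1
    obtain ⟨a, ha, e⟩ := (h ▸ mem_simplex_axis hJ q : _ ∈ β '' simplex {i} fun _ => l)
    refine ⟨j, fun b => ?_⟩
    rw [← hax j (q j), ← e, hip, simplex_single i l ha, hax]
  choose σ hσ using this
  have hinj : Function.Injective σ := fun i j hij => by
    by_contra h
    have a1 := hσ i (toD _ (nsq_axis i l))
    have a2 := len_of_enc (y := axis i l) (enc_rep (toD _ (nsq_axis i l)))
    rw [hij, hσ, a2, a2] at a1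
    simp [axis, Ne.symm h] at a1
  exact ⟨Equiv.ofBijective σ (Finite.injective_iff_bijective.1 hinj), fun a i => hσ i a⟩

theorem centre (S : Set (Delta n L)) (h1 : IsClosed S) (h2 : IsConvex S) :
    (∀ a ∈ S, ∃ b ∈ S, Opp a b) ∨ ∃ c ∈ S, ∀ β, IsAut β → β '' S = S → β c = c := by
  rcases S.eq_empty_or_nonempty with rfl | hne
  · simp
  have := hne.some.nontrivial
  have hC := isCone_coneOf hne h1 h2
  by_cases h : Opps (coneOf S) Set.univ
  · refine Or.inl fun a ha => ?_
    obtain ⟨u, ⟨t, ht, b, hb, hu⟩, e1, -, e2⟩ :=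
      h (rep a) ⟨1, zero_le_one, a, ha, by rw [enc_rep, one_smul]⟩
    have e3 : nsq u = 1 := by
      rw [← nsq_rep a]; exact Finset.sum_congr rfl fun i _ => by rw [e1 i trivial]
    have e4 : t = 1 := by
      rw [nsq_of_scale ht hu] at e3; nlinarith
    refine ⟨b, hb, (opp_iff a b).2 ?_⟩
    rw [← e3, ← e2, ip_congr rfl (hu.trans (by rw [e4, one_smul, enc_rep]))]
  · obtain ⟨c, ⟨t, ht, a, ha, hc⟩, c0, hfix⟩ := hC.hasFix h
    refine Or.inr ⟨a, ha, fun β hβ hS => ?_⟩
    obtain ⟨σ, hσ⟩ := hβ.perm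
    have hsc : ∀ (t : ℝ), 0 ≤ t → ∀ a : Delta n L, enc (smul t (rep a)) = t • a.1 :=
      fun t ht a => by rw [enc_smul ht, enc_rep]
    have hiso : Iso (coneOf S) σ fun x y =>
        ∃ t : ℝ, 0 ≤ t ∧ ∃ a, enc x = t • a.1 ∧ enc y = t • (β a).1 := by
      refine ⟨?_, ?_, ?_, ?_⟩
      · rintro x ⟨t, ht, a, ha, hx⟩
        exact ⟨_, ⟨t, ht, β a, hS ▸ Set.mem_image_of_mem _ ha, hsc t ht _⟩, t, ht, a, hx,
          hsc t ht _⟩
      · rintro y ⟨t, ht, b, hb, hy⟩
        obtain ⟨a, ha, rfl⟩ := (hS.symm ▸ hb : b ∈ β '' S)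
        exact ⟨_, ⟨t, ht, a, ha, hsc t ht _⟩, t, ht, a, hsc t ht _, hy⟩
      · rintro x y x' y' ⟨t, ht, a, hx, hy⟩ ⟨s, hs, b, hx', hy'⟩
        rw [ip_of_scale ht hs hy hy', ip_of_scale ht hs hx hx', ← cos_dist, ← cos_dist, hβ.1]
      · rintro x y ⟨t, ht, a, hx, hy⟩ i
        rw [len_of_enc (enc_of_scale ht hx), len_of_enc (enc_of_scale ht hy)]
        simp only [smul, T.len_smul ht, hσ]
    have := enc_of_dsq (hfix σ _ hiso _
      ⟨t, ht, β a, hS ▸ Set.mem_image_of_mem _ ha, hsc t ht _⟩ ⟨t, ht, a, hc, hsc t ht _⟩)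
    rw [hc, hsc t ht] at this
    have ht0 : t ≠ 0 := by
      rintro rfl
      exact c0 (by simpa using nsq_of_scale le_rfl hc)
    exact Subtype.ext (smul_right_injective _ ht0 this).symm

end Pool.Agent.P.MP_8ecd01_al.A1
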